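import Pool.Agent.Helper24.PT.URel
import Pool.Agent.Helper36.So4

/-!
Factors of three kinds: real type (`S`), type III (`Q`), complex multiplication (`T`), and the
representations of dimension two attached to the places.
-/

namespace Pool.Agent.Helper8.D

open Module NumberField Pool.Agent.Helper7 Pool.Agent.Helper24 Pool.Agent.Helper36 Matrix

set_option linter.unusedSectionVars false

section single

variable {κ : Type} [Fintype κ] [DecidableEq κ] {ϖ : ℂ}

/-- symmetries of a factor -/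
structure Sym (P : PData κ ϖ) (X : Module.End ℂ (κ → ℂ)) (c : ℂ) : Prop where
  comm : ∀ g : Module.End ℂ (κ → ℂ), IsDRB P P g → ∀ v, X (g v) = g (X v)
  pol : ∀ u v, P.ψ (X u) v + P.ψ u (X v) = c * P.ψ u v

lemma Sym.add {P : PData κ ϖ} {X Y : Module.End ℂ (κ → ℂ)} {c d : ℂ} (hX : Sym P X c)
    (hY : Sym P Y d) : Sym P (X + Y) (c + d) where
  comm g hg v := by
    rw [LinearMap.add_apply, LinearMap.add_apply, hX.comm g hg, hY.comm g hg, map_add]
  pol u v := by
    rw [LinearMap.add_apply, LinearMap.add_apply, map_add, map_add, LinearMap.add_apply, add_mul,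
      ← hX.pol, ← hY.pol]
    ring

lemma Sym.smul {P : PData κ ϖ} {X : Module.End ℂ (κ → ℂ)} {c : ℂ} (a : ℂ) (hX : Sym P X c) :
    Sym P (a • X) (a * c) where
  comm g hg v := by
    rw [LinearMap.smul_apply, LinearMap.smul_apply, hX.comm g hg, map_smul]
  pol u v := by
    rw [LinearMap.smul_apply, LinearMap.smul_apply, map_smul, map_smul, LinearMap.smul_apply,
      mul_assoc, ← hX.pol, smul_eq_mul, smul_eq_mul]
    ring

lemma Sym.bracket {P : PData κ ϖ} {X Y : Module.End ℂ (κ → ℂ)} {c d : ℂ} (hX : Sym P X c)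
    (hY : Sym P Y d) : Sym P (X * Y - Y * X) 0 where
  comm g hg v := by
    simp only [LinearMap.sub_apply, Module.End.mul_apply, map_sub, hX.comm g hg, hY.comm g hg]
  pol u v := by
    simp only [LinearMap.sub_apply, Module.End.mul_apply, map_sub, zero_mul]
    have h1 := hX.pol (Y u) v
    have h2 := hY.pol u (X v)
    have h3 := hY.pol (X u) v
    have h4 := hX.pol u (Y v)
    have h5 := hX.pol u v
    have h6 := hY.pol u v
    linear_combination h1 - h3 + h4 - h2 + c * h6 - d * h5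

variable {K : Type} [Field K] [NumberField K] {P : PData κ ϖ}

/-- the matrix of an endomorphism at a place -/
noncomputable def ent {r : ℕ} (F : UF P K r) (σ : K →+* ℂ) :
    Module.End ℂ (κ → ℂ) →ₗ[ℂ] Matrix (Fin r) (Fin r) ℂ where
  toFun X := Matrix.of fun a b => F.co σ a (X (F.e σ b))
  map_add' X Y := by ext a b; simp
  map_smul' c X := by ext a b; simp

lemma ent_apply {r : ℕ} (F : UF P K r) (σ : K →+* ℂ) (X : Module.End ℂ (κ → ℂ)) (a b : Fin r) :
    ent F σ X a b = F.co σ a (X (F.e σ b)) := rfl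

lemma ent_act {r : ℕ} (F : UF P K r) (σ : K →+* ℂ) (X : Module.End ℂ (κ → ℂ)) (hX : F.Comm X)
    (b : Fin r) : X (F.e σ b) = ∑ a, ent F σ X a b • F.e σ a := hX.act σ b

lemma ent_mul {r : ℕ} (F : UF P K r) (σ : K →+* ℂ) (X Y : Module.End ℂ (κ → ℂ)) (hY : F.Comm Y) :
    ent F σ (X * Y) = ent F σ X * ent F σ Y := by
  ext a b
  rw [ent_apply, Module.End.mul_apply, ent_act F σ Y hY, map_sum, map_sum, Matrix.mul_apply]
  refine Finset.sum_congr rfl fun d _ => ?_
  rw [map_smul, map_smul, smul_eq_mul, ent_apply F σ X, mul_comm]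

lemma Sym.commF {r : ℕ} (F : UF P K r) {X : Module.End ℂ (κ → ℂ)} {c : ℂ} (hX : Sym P X c) :
    F.Comm X := fun x v => hX.comm _ (F.hρ x) v

lemma ent_trace {r : ℕ} (F : UF P K r) (hr : 0 < r) (σ : K →+* ℂ) (X : Module.End ℂ (κ → ℂ)) :
    (ent F σ X).trace = r * tw F σ X := by
  rw [tw_apply, mul_div_cancel₀ _ (by exact_mod_cast hr.ne')]
  rfl

lemma ent_proj {r : ℕ} (F : UF P K r) (σ : K →+* ℂ) {X Y : Module.End ℂ (κ → ℂ)}
    (hX : F.Comm X) (hY : F.Comm Y) (h : ent F σ X = ent F σ Y) (v : κ → ℂ) :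
    X (proj F.ρ σ v) = Y (proj F.ρ σ v) := by
  rw [F.proj_eq, map_sum, map_sum]
  refine Finset.sum_congr rfl fun b _ => ?_
  rw [map_smul, map_smul, ent_act F σ X hX, ent_act F σ Y hY, h]

/-- A factor of type III: the endomorphism algebra is `K + K j`. -/
structure QF (P : PData κ ϖ) (K : Type) [Field K] [NumberField K] (r : ℕ) extends UF P K r where
  j : Module.End ℂ (κ → ℂ)
  hj : IsDRB P P j
  b : K
  b_ne : b ≠ 0
  jj : ∀ v, j (j v) = ρ b v
  jρ : ∀ x v, j (ρ x v) = ρ (cc x) (j v)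
  jψ : ∀ u v, P.ψ (j u) v = - P.ψ u (j v)
  hend : ∀ f : Module.End ℂ (κ → ℂ), IsDRB P P f → ∃ x y, ∀ v, f v = ρ x v + ρ y (j v)
  cplx : ∀ σ : K →+* ℂ, ComplexEmbedding.conjugate σ ≠ σ

namespace QF

variable {r : ℕ} (F : QF P K r)

lemma cc_b [NeZero r] : F.cc F.b = F.b := by
  have σ : K →+* ℂ := Classical.choice (inferInstance : Nonempty (K →+* ℂ))
  have h1 : ∀ v, F.ρ (F.cc F.b) (F.j v) = F.ρ F.b (F.j v) := fun v => by
    rw [← F.jρ, ← F.jj, ← F.jj]
  have h2 : ∀ v, F.ρ (F.cc F.b) v = F.ρ F.b v := by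
    intro v
    have h3 : v = F.j (F.j (F.ρ (F.b)⁻¹ v)) := by
      rw [F.jj, ← Module.End.mul_apply, ← map_mul, mul_inv_cancel₀ F.b_ne, map_one]
      rfl
    rw [h3, h1]
  apply σ.injective
  have h4 := h2 (F.e σ 0)
  rw [F.toUF.rho_e, F.toUF.rho_e] at h4
  exact smul_left_injective ℂ (e_ne F.toUF σ 0) h4

/-- eigenvectors lie in the eigenspace -/
lemma proj_of_eig (σ : K →+* ℂ) (w : κ → ℂ) (hw : ∀ x, F.ρ x w = σ x • w) :
    proj F.ρ σ w = w := by
  classical
  conv_rhs => rw [sum_proj_apply F.ρ w]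
  rw [Finset.sum_eq_single σ]
  · intro τ _ hτ
    by_contra h0
    apply hτ
    ext x
    have h1 := F.toUF.proj_rho τ x w
    rw [hw, map_smul] at h1
    exact (smul_left_injective ℂ h0 h1).symm
  · intro h; exact absurd (Finset.mem_univ _) h

lemma j_proj' (σ : K →+* ℂ) (v : κ → ℂ) :
    proj F.ρ (ComplexEmbedding.conjugate σ) (F.j (proj F.ρ σ v)) = F.j (proj F.ρ σ v) := by
  apply F.proj_of_eig
  intro x
  have h1 : F.ρ x (F.j (proj F.ρ σ v)) = F.j (F.ρ (F.cc x) (proj F.ρ σ v)) := by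
    rw [F.jρ, F.cc_cc]
  rw [h1, ← Module.End.mul_apply (F.ρ _), rho_mul_proj, LinearMap.smul_apply, map_smul, F.hcc,
    ComplexEmbedding.conjugate_coe_eq]

/-- `j` exchanges conjugate places -/
lemma j_proj (σ : K →+* ℂ) (v : κ → ℂ) :
    F.j (proj F.ρ σ v) = proj F.ρ (ComplexEmbedding.conjugate σ) (F.j v) := by
  classical
  have h1 : F.j v = ∑ τ, F.j (proj F.ρ τ v) := by
    conv_lhs => rw [sum_proj_apply F.ρ v]
    rw [map_sum]
  rw [h1, map_sum, Finset.sum_eq_single σ]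
  · rw [F.j_proj']
  · intro τ _ hτ
    rw [← F.j_proj' τ, ← Module.End.mul_apply, proj_mul_proj, if_neg, LinearMap.zero_apply]
    intro h
    apply hτ
    rw [← conj_conj τ, ← h, conj_conj]
  · intro h; exact absurd (Finset.mem_univ _) h

lemma exists_j (v : κ → ℂ) : ∃ w, F.j w = v := by
  refine ⟨F.j (F.ρ (F.b)⁻¹ v), ?_⟩
  rw [F.jj, ← Module.End.mul_apply, ← map_mul, mul_inv_cancel₀ F.b_ne, map_one]
  rfl

/-- the symmetric form at a place -/
noncomputable def sf (σ : K →+* ℂ) : Matrix (Fin r) (Fin r) ℂ :=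
  Matrix.of fun a c => P.ψ (F.j (F.e σ a)) (F.e σ c)

lemma sf_symm (σ : K →+* ℂ) : (F.sf σ)ᵀ = F.sf σ := by
  ext a c
  show P.ψ (F.j (F.e σ c)) (F.e σ a) = P.ψ (F.j (F.e σ a)) (F.e σ c)
  rw [F.jψ, P.hψalt, neg_neg]

lemma sf_det (σ : K →+* ℂ) : (F.sf σ).det ≠ 0 := by
  intro h0
  obtain ⟨v, hv0, hv⟩ := Matrix.exists_mulVec_eq_zero_iff.mpr h0
  apply hv0
  have h1 : ∑ c, v c • F.e σ c = 0 := by
    apply P.hψnd
    intro u
    rw [P.hψalt, neg_eq_zero]
    obtain ⟨w, rfl⟩ := F.exists_j u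
    refine F.toUF.ext_e ((P.ψ.flip (∑ c, v c • F.e σ c)) ∘ₗ F.j) 0 (fun τ a => ?_) w
    rw [LinearMap.comp_apply, LinearMap.flip_apply, map_sum, LinearMap.zero_apply]
    by_cases hτ : τ = σ
    · subst hτ
      have h2 := congrFun hv a
      rw [Matrix.mulVec, dotProduct, Pi.zero_apply] at h2
      rw [← h2]
      refine Finset.sum_congr rfl fun c _ => ?_
      rw [map_smul, smul_eq_mul, mul_comm]; rfl
    · refine Finset.sum_eq_zero fun c _ => ?_
      have h3 : F.j (F.e τ a) = ∑ d, F.co (ComplexEmbedding.conjugate τ) d (F.j (F.e τ a)) •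
          F.e (ComplexEmbedding.conjugate τ) d := by
        rw [← F.toUF.proj_eq, ← F.j_proj, F.toUF.proj_e, if_pos rfl]
      rw [map_smul, h3, map_sum, LinearMap.sum_apply, Finset.sum_eq_zero, smul_zero]
      intro d _
      rw [map_smul, LinearMap.smul_apply, F.toUF.psi_e, smul_zero]
      intro h
      apply hτ
      rw [← conj_conj τ, ← h]
  funext c
  have h2 := congrArg (F.co σ c) h1
  rw [map_sum, map_zero, Finset.sum_eq_single c] at h2
  · rwa [map_smul, co_e_same, if_pos rfl, smul_eq_mul, mul_one] at h2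
  · intro b' _ hb
    rw [map_smul, co_e_same, if_neg (Ne.symm hb), smul_zero]
  · intro h; exact absurd (Finset.mem_univ _) h

/-- symmetries are similitudes of the symmetric form -/
lemma gso' (σ : K →+* ℂ) {X : Module.End ℂ (κ → ℂ)} {c : ℂ} (hX : Sym P X c) :
    (ent F.toUF σ X)ᵀ * F.sf σ + F.sf σ * ent F.toUF σ X = c • F.sf σ := by
  ext a d
  rw [Matrix.add_apply, Matrix.mul_apply, Matrix.mul_apply, Matrix.smul_apply, smul_eq_mul]
  have h2 := hX.pol (F.j (F.e σ a)) (F.e σ d)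
  rw [hX.comm F.j F.hj, ent_act F.toUF σ X (hX.commF F.toUF) a,
    ent_act F.toUF σ X (hX.commF F.toUF) d, map_sum, map_sum, LinearMap.sum_apply, map_sum] at h2
  show ∑ e, ent F.toUF σ X e a * P.ψ (F.j (F.e σ e)) (F.e σ d) +
    ∑ e, P.ψ (F.j (F.e σ a)) (F.e σ e) * ent F.toUF σ X e d = c * P.ψ (F.j (F.e σ a)) (F.e σ d)
  rw [← h2]
  congr 1
  · refine Finset.sum_congr rfl fun e _ => ?_
    rw [map_smul, map_smul, LinearMap.smul_apply, smul_eq_mul]
  · refine Finset.sum_congr rfl fun e _ => ?_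
    rw [map_smul, smul_eq_mul, mul_comm]

lemma gso (F : QF P K 4) (σ : K →+* ℂ) {X : Module.End ℂ (κ → ℂ)} {c : ℂ} (hX : Sym P X c) :
    GSO (F.sf σ) (ent F.toUF σ X) c := F.gso' σ hX

/-- the decomposition of the orthogonal algebra at a place -/
noncomputable def sp (F : QF P K 4) (σ : K →+* ℂ) : Split4 (F.sf σ) :=
  Classical.choice (exists_split4 _ (F.sf_symm σ) (F.sf_det σ))

lemma tw_half (hr : 0 < r) (σ : K →+* ℂ) {X : Module.End ℂ (κ → ℂ)} {c : ℂ} (hX : Sym P X c) :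
    tw F.toUF σ X = c / 2 := by
  have h1 := F.gso' σ hX
  have hu : IsUnit (F.sf σ).det := isUnit_iff_ne_zero.mpr (F.sf_det σ)
  have h3 := congrArg (fun M => ((F.sf σ)⁻¹ * M).trace) h1
  simp only [Matrix.mul_add, Matrix.trace_add, Matrix.mul_smul, Matrix.trace_smul,
    Matrix.nonsing_inv_mul _ hu, Matrix.trace_one, Fintype.card_fin, smul_eq_mul] at h3
  rw [← Matrix.mul_assoc (F.sf σ)⁻¹ (F.sf σ) _, Matrix.nonsing_inv_mul _ hu, Matrix.one_mul,
    Matrix.trace_mul_comm, Matrix.mul_assoc, Matrix.mul_nonsing_inv _ hu,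
    Matrix.mul_one, Matrix.trace_transpose, ent_trace F.toUF hr] at h3
  have hr' : (r : ℂ) ≠ 0 := by exact_mod_cast hr.ne'
  apply mul_left_cancel₀ hr'
  linear_combination h3 / 2

end QF

/-- A factor of one of the three kinds. -/
inductive Fac3 (P : PData κ ϖ) (K : Type) [Field K] [NumberField K]
  | S (F : UF P K 2) (h : ∀ σ : K →+* ℂ, ComplexEmbedding.conjugate σ = σ) : Fac3 P K
  | Q (F : QF P K 4) : Fac3 P K
  | R (F : QF P K 6) : Fac3 P K
  | T (F : UF P K 1) : Fac3 P K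

namespace Fac3

/-- the rank over the field -/
def rk : Fac3 P K → ℕ
  | .S _ _ => 2
  | .Q _ => 4
  | .R _ => 6
  | .T _ => 1

/-- the underlying factor -/
def toUF : (f : Fac3 P K) → UF P K f.rk
  | .S F _ => F
  | .Q F => F.toUF
  | .R F => F.toUF
  | .T F => F

/-- factors of real type -/
def isS : Fac3 P K → Prop
  | .S _ _ => True
  | _ => False

/-- factors of type III, of rank four -/
def isQ : Fac3 P K → Prop
  | .Q _ => True
  | _ => False

/-- factors of type III, of rank six -/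
def isR : Fac3 P K → Prop
  | .R _ => True
  | _ => False

/-- factors of CM type -/
def isT : Fac3 P K → Prop
  | .T _ => True
  | _ => False

instance (f : Fac3 P K) : Decidable f.isS := by
  cases f <;> unfold isS <;> infer_instance

instance (f : Fac3 P K) : Decidable f.isQ := by
  cases f <;> unfold isQ <;> infer_instance

instance (f : Fac3 P K) : Decidable f.isR := by
  cases f <;> unfold isR <;> infer_instance

instance (f : Fac3 P K) : Decidable f.isT := by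
  cases f <;> unfold isT <;> infer_instance

/-- the representations of dimension two at a place (of kind `S` or `Q`) -/
noncomputable def A : (f : Fac3 P K) → (σ : K →+* ℂ) → Fin 2 →
    (Module.End ℂ (κ → ℂ) × ℂ) →ₗ[ℂ] Matrix (Fin 2) (Fin 2) ℂ
  | .S F _, σ, _ => ent F σ ∘ₗ LinearMap.fst ℂ _ _
  | .Q F, σ, ε => (F.sp σ).a ε ∘ₗ (ent F.toUF σ).prodMap LinearMap.id
  | .R _, _, _ => (LinearMap.toSpanSingleton ℂ _ ((1 / 2 : ℂ) • 1)) ∘ₗ LinearMap.snd ℂ _ _
  | .T _, _, _ => (LinearMap.toSpanSingleton ℂ _ ((1 / 2 : ℂ) • 1)) ∘ₗ LinearMap.snd ℂ _ _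

lemma rk_pos (f : Fac3 P K) : 0 < f.rk := by
  cases f <;> norm_num [rk]

lemma ch_half (f : Fac3 P K) (hf : ¬ f.isT) (σ : K →+* ℂ) {X : Module.End ℂ (κ → ℂ)} {c : ℂ}
    (hX : Sym P X c) : tw f.toUF σ X = c / 2 := by
  cases f with
  | S F h =>
    have h1 := tw_conj F (by norm_num) X (hX.commF F) c hX.pol σ
    rw [h σ] at h1
    show tw F σ X = c / 2
    linear_combination h1 / 2
  | Q F => exact F.tw_half (by norm_num) σ hX
  | R F => exact F.tw_half (by norm_num) σ hX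
  | T F => exact absurd trivial hf

lemma A_tr (f : Fac3 P K) (σ : K →+* ℂ) (ε : Fin 2) {X : Module.End ℂ (κ → ℂ)} {c : ℂ}
    (hX : Sym P X c) : (f.A σ ε (X, c)).trace = c := by
  cases f with
  | S F h =>
    have h1 := ch_half (.S F h) (fun h => h) σ hX
    have h2 := ent_trace F (by norm_num) σ X
    show (ent F σ X).trace = c
    have h3 : tw F σ X = c / 2 := h1
    rw [h2, h3]
    push_cast
    ring
  | Q F => exact (F.sp σ).tr ε _ _
  | R F =>
    show (c • ((1 / 2 : ℂ) • (1 : Matrix (Fin 2) (Fin 2) ℂ))).trace = c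
    rw [Matrix.trace_smul, Matrix.trace_smul, Matrix.trace_one]
    simp
  | T F =>
    show (c • ((1 / 2 : ℂ) • (1 : Matrix (Fin 2) (Fin 2) ℂ))).trace = c
    rw [Matrix.trace_smul, Matrix.trace_smul, Matrix.trace_one]
    simp

lemma A_br (f : Fac3 P K) (σ : K →+* ℂ) (ε : Fin 2) {X Y : Module.End ℂ (κ → ℂ)} {c d : ℂ}
    (hX : Sym P X c) (hY : Sym P Y d) : f.A σ ε (X * Y - Y * X, 0) =
      f.A σ ε (X, c) * f.A σ ε (Y, d) - f.A σ ε (Y, d) * f.A σ ε (X, c) := by
  cases f with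
  | S F h =>
    show ent F σ (X * Y - Y * X) = ent F σ X * ent F σ Y - ent F σ Y * ent F σ X
    rw [map_sub, ent_mul F σ X Y (hY.commF F), ent_mul F σ Y X (hX.commF F)]
  | Q F =>
    show (F.sp σ).a ε (ent F.toUF σ (X * Y - Y * X), 0) = _
    rw [map_sub, ent_mul F.toUF σ X Y (hY.commF F.toUF), ent_mul F.toUF σ Y X (hX.commF F.toUF)]
    exact (F.sp σ).br ε _ _ _ _ (F.gso σ hX) (F.gso σ hY)
  | R F =>
    show (0 : ℂ) • ((1 / 2 : ℂ) • (1 : Matrix (Fin 2) (Fin 2) ℂ)) =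
      (c • ((1 / 2 : ℂ) • (1 : Matrix (Fin 2) (Fin 2) ℂ))) *
      (d • ((1 / 2 : ℂ) • (1 : Matrix (Fin 2) (Fin 2) ℂ))) -
      (d • ((1 / 2 : ℂ) • (1 : Matrix (Fin 2) (Fin 2) ℂ))) *
      (c • ((1 / 2 : ℂ) • (1 : Matrix (Fin 2) (Fin 2) ℂ)))
    simp [smul_smul, mul_comm]
  | T F =>
    show (0 : ℂ) • ((1 / 2 : ℂ) • (1 : Matrix (Fin 2) (Fin 2) ℂ)) =
      (c • ((1 / 2 : ℂ) • (1 : Matrix (Fin 2) (Fin 2) ℂ))) *
      (d • ((1 / 2 : ℂ) • (1 : Matrix (Fin 2) (Fin 2) ℂ))) -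
      (d • ((1 / 2 : ℂ) • (1 : Matrix (Fin 2) (Fin 2) ℂ))) *
      (c • ((1 / 2 : ℂ) • (1 : Matrix (Fin 2) (Fin 2) ℂ)))
    simp [smul_smul, mul_comm]

/-- symmetries with the same representations of dimension two agree on the eigenspace -/
lemma eq_of_A (f : Fac3 P K) (hf : f.isS ∨ f.isQ) (σ : K →+* ℂ) {X Y : Module.End ℂ (κ → ℂ)} {c : ℂ}
    (hX : Sym P X c) (hY : Sym P Y c) (h : ∀ ε, f.A σ ε (X, c) = f.A σ ε (Y, c)) (v : κ → ℂ) :
    X (proj f.toUF.ρ σ v) = Y (proj f.toUF.ρ σ v) := by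
  cases f with
  | S F h' =>
    exact ent_proj F σ (hX.commF F) (hY.commF F) (h 0) v
  | Q F =>
    exact ent_proj F.toUF σ (hX.commF F.toUF) (hY.commF F.toUF)
      ((F.sp σ).uniq _ _ c (F.gso σ hX) (F.gso σ hY) h) v
  | R F => rcases hf with hf | hf <;> exact hf.elim
  | T F => rcases hf with hf | hf <;> exact hf.elim

end Fac3

end single

end Pool.Agent.Helper8.D
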