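import Pool.Agent.Helper8.D.Setup
import Pool.Agent.Helper7.Sl2

/-!
The representations of dimension two of the Lie algebra of symmetries of a family.
-/

namespace Pool.Agent.Helper8.D

open Module NumberField Pool.Agent.Helper7 Pool.Agent.Helper24 Pool.Agent.Helper36 Matrix
open Pool.Agent.GPC (Emb)

set_option linter.unusedSectionVars false

section family

variable {I : Type} [Fintype I] [DecidableEq I] (n : I → ℕ)
  {κ : I → Type} [∀ i, Fintype (κ i)] [∀ i, DecidableEq (κ i)] {ϖ : ℂ}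
  (P : ∀ i, PData (κ i) ϖ)
  {K : I → Type} [∀ i, Field (K i)] [∀ i, NumberField (K i)]
  {k : ℕ} (α : MultilinearMap ℂ (fun _ : Fin (2 * k) => HW κ n) ℂ)

lemma symI {X : GG κ} (hX : IsInv n P α X) (i : I) : Sym (P i) (X.1 i) X.2 :=
  ⟨fun g hg v => hX.comm i i g hg v, hX.pol i⟩

variable (hϖ : ϖ ≠ 0)
  (hB : ∀ v : Fin (2 * k) → HW κ n, (∀ r, IsRatP n P (v r)) → ∃ q : ℚ, α v = ϖ ^ k * q)
  (hA : ∀ v : Fin (2 * k) → HW κ n, (∀ r i m j, IsAlgebraic ℚ (v r i m j)) →
      IsAlgebraic ℚ (α v))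

include hϖ hB hA in
/-- the eigenspaces are irreducible, in coordinates -/
theorem ent_irr (i : I) {r : ℕ} (F' : UF (P i) (K i) r) (σ : K i →+* ℂ)
    (U : Submodule ℂ (Fin r → ℂ))
    (hU : ∀ X, IsInv n P α X → ∀ v ∈ U, ent F' σ (X.1 i) *ᵥ v ∈ U) : U = ⊥ ∨ U = ⊤ := by
  classical
  let g : (Fin r → ℂ) →ₗ[ℂ] (κ i → ℂ) := Fintype.linearCombination ℂ (F'.e σ)
  have hg : ∀ c, g c = ∑ j, c j • F'.e σ j := fun c => Fintype.linearCombination_apply ℂ _ c
  have hco : ∀ c a, F'.co σ a (g c) = c a := by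
    intro c a
    rw [hg, map_sum, Finset.sum_eq_single a]
    · rw [map_smul, co_e_same, if_pos rfl, smul_eq_mul, mul_one]
    · intro b _ hb
      rw [map_smul, co_e_same, if_neg (Ne.symm hb), smul_zero]
    · intro h; exact absurd (Finset.mem_univ _) h
  have hact : ∀ X, IsInv n P α X → ∀ c, X.1 i (g c) = g (ent F' σ (X.1 i) *ᵥ c) := by
    intro X hX c
    rw [hg, hg, map_sum]
    simp only [map_smul, ent_act F' σ (X.1 i) ((symI n P α hX i).commF F'), Finset.smul_sum,
      smul_smul]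
    rw [Finset.sum_comm]
    refine Finset.sum_congr rfl fun a _ => ?_
    rw [← Finset.sum_smul]
    congr 1
    rw [Matrix.mulVec, dotProduct]
    exact Finset.sum_congr rfl fun b _ => mul_comm _ _
  have hrange : LinearMap.range g = Submodule.span ℂ (Set.range (F'.e σ)) :=
    Fintype.range_linearCombination ℂ _
  have h1 := F'.irred_place n P α i hϖ hB hA σ (U.map g) (by
      rw [← hrange]
      exact LinearMap.map_le_range) (by
      rintro X hX _ ⟨v, hv, rfl⟩
      rw [hact X hX]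
      exact ⟨_, hU X hX v hv, rfl⟩)
  rcases h1 with h1 | h1
  · left
    rw [eq_bot_iff]
    intro v hv
    have h2 : g v = 0 := by
      have : g v ∈ U.map g := ⟨v, hv, rfl⟩
      rw [h1] at this
      exact (Submodule.mem_bot ℂ).mp this
    rw [Submodule.mem_bot]
    funext a
    rw [← hco v a, h2, map_zero]
    rfl
  · right
    rw [eq_top_iff]
    intro v _
    have h2 : g v ∈ U.map g := by
      rw [h1, ← hrange]
      exact ⟨v, rfl⟩
    obtain ⟨u, hu, huv⟩ := h2
    have h3 : u = v := by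
      funext a
      rw [← hco u a, huv, hco]
    rw [← h3]
    exact hu

variable (F : ∀ i, Fac3 (P i) (K i))

/-- the representation of dimension two attached to a place and an index -/
noncomputable def AA (s : Emb K) (ε : Fin 2) : GG κ →ₗ[ℂ] Matrix (Fin 2) (Fin 2) ℂ :=
  ((F s.1).A s.2 ε) ∘ₗ ((LinearMap.proj s.1).prodMap LinearMap.id)

lemma AA_apply (s : Emb K) (ε : Fin 2) (X : GG κ) :
    AA P F s ε X = (F s.1).A s.2 ε (X.1 s.1, X.2) := rfl

lemma AA_tr (s : Emb K) (ε : Fin 2) {X : GG κ} (hX : ∀ i, Sym (P i) (X.1 i) X.2) :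
    (AA P F s ε X).trace = X.2 := (F s.1).A_tr s.2 ε (hX s.1)

lemma AA_br (s : Emb K) (ε : Fin 2) {X Y : GG κ} (hX : ∀ i, Sym (P i) (X.1 i) X.2)
    (hY : ∀ i, Sym (P i) (Y.1 i) Y.2) : AA P F s ε (X * Y - Y * X) =
      AA P F s ε X * AA P F s ε Y - AA P F s ε Y * AA P F s ε X := by
  have h1 : AA P F s ε (X * Y - Y * X) =
      (F s.1).A s.2 ε (X.1 s.1 * Y.1 s.1 - Y.1 s.1 * X.1 s.1, 0) := by
    rw [AA_apply]
    congr 1
    refine Prod.ext rfl ?_
    show X.2 * Y.2 - Y.2 * X.2 = 0
    ring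
  rw [h1]
  exact (F s.1).A_br s.2 ε (hX s.1) (hY s.1)

/-- the symmetries of the family, as a space -/
def SS : Type _ := gSub n P α

noncomputable instance : AddCommGroup (SS n P α) := inferInstanceAs (AddCommGroup (gSub n P α))

noncomputable instance : Module ℂ (SS n P α) := inferInstanceAs (Module ℂ (gSub n P α))

/-- the underlying pair -/
noncomputable def vl : SS n P α →ₗ[ℂ] GG κ := (gSub n P α).subtype

lemma vl_inv (X : SS n P α) : IsInv n P α (vl n P α X) := X.2

/-- a symmetry as an element of the space of symmetries -/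
def mkS (X : GG κ) (hX : IsInv n P α X) : SS n P α := ⟨X, hX⟩

lemma vl_mkS (X : GG κ) (hX : IsInv n P α X) : vl n P α (mkS n P α X hX) = X := rfl

/-- the bracket of symmetries -/
noncomputable def brS (X Y : SS n P α) : SS n P α :=
  mkS n P α (vl n P α X * vl n P α Y - vl n P α Y * vl n P α X)
    (IsInv.bracket n P α (vl_inv n P α X) (vl_inv n P α Y))

lemma vl_brS (X Y : SS n P α) : vl n P α (brS n P α X Y) =
    vl n P α X * vl n P α Y - vl n P α Y * vl n P α X := rfl

/-- the multiplier -/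
noncomputable def cS : SS n P α →ₗ[ℂ] ℂ :=
  (LinearMap.snd ℂ ((i : I) → Module.End ℂ (κ i → ℂ)) ℂ) ∘ₗ vl n P α

lemma cS_apply (X : SS n P α) : cS n P α X = (vl n P α X).2 := rfl

/-- the matrix at a place -/
noncomputable def entS (i : I) {r : ℕ} (F' : UF (P i) (K i) r) (σ : K i →+* ℂ) :
    SS n P α →ₗ[ℂ] Matrix (Fin r) (Fin r) ℂ :=
  (ent F' σ) ∘ₗ (LinearMap.proj i) ∘ₗ
    (LinearMap.fst ℂ ((i : I) → Module.End ℂ (κ i → ℂ)) ℂ) ∘ₗ vl n P α

lemma entS_apply (i : I) {r : ℕ} (F' : UF (P i) (K i) r) (σ : K i →+* ℂ) (X : SS n P α) :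
    entS n P α i F' σ X = ent F' σ ((vl n P α X).1 i) := rfl

lemma entS_br (i : I) {r : ℕ} (F' : UF (P i) (K i) r) (σ : K i →+* ℂ) (X Y : SS n P α) :
    entS n P α i F' σ (brS n P α X Y) = entS n P α i F' σ X * entS n P α i F' σ Y -
      entS n P α i F' σ Y * entS n P α i F' σ X := by
  rw [entS_apply, entS_apply, entS_apply, vl_brS]
  have h1 : (vl n P α X * vl n P α Y - vl n P α Y * vl n P α X).1 i =
    (vl n P α X).1 i * (vl n P α Y).1 i - (vl n P α Y).1 i * (vl n P α X).1 i := rfl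
  rw [h1, map_sub, ent_mul F' σ _ _ ((symI n P α (vl_inv n P α Y) i).commF F'),
    ent_mul F' σ _ _ ((symI n P α (vl_inv n P α X) i).commF F')]

lemma cS_br (X Y : SS n P α) : cS n P α (brS n P α X Y) = 0 := by
  rw [cS_apply, vl_brS]
  show (vl n P α X).2 * (vl n P α Y).2 - (vl n P α Y).2 * (vl n P α X).2 = 0
  ring

/-- the representation of dimension two, on the symmetries -/
noncomputable def AS (t : Emb K × Fin 2) : SS n P α →ₗ[ℂ] Matrix (Fin 2) (Fin 2) ℂ :=
  (AA P F t.1 t.2) ∘ₗ vl n P α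

lemma AS_apply (t : Emb K × Fin 2) (X : SS n P α) :
    AS n P α F t X = AA P F t.1 t.2 (vl n P α X) := rfl

lemma AS_br (t : Emb K × Fin 2) (X Y : SS n P α) : AS n P α F t (brS n P α X Y) =
    AS n P α F t X * AS n P α F t Y - AS n P α F t Y * AS n P α F t X :=
  AA_br P F t.1 t.2 (symI n P α (vl_inv n P α X)) (symI n P α (vl_inv n P α Y))

lemma AS_tr (t : Emb K × Fin 2) (X : SS n P α) : (AS n P α F t X).trace = cS n P α X :=
  AA_tr P F t.1 t.2 (symI n P α (vl_inv n P α X))

include hϖ hB hA in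
/-- the representations are onto the matrices of trace zero -/
theorem AS_surj (t : Emb K × Fin 2) (ht : (F t.1.1).isS ∨ (F t.1.1).isQ)
    (Z : Matrix (Fin 2) (Fin 2) ℂ) (hZ : Z.trace = 0) : ∃ X, AS n P α F t X = Z := by
  obtain ⟨⟨i, σ⟩, ε⟩ := t
  simp only at ht
  have hAS : ∀ X, AS n P α F (⟨i, σ⟩, ε) X = (F i).A σ ε ((vl n P α X).1 i, (vl n P α X).2) :=
    fun X => rfl
  simp only [hAS]
  cases hF : F i with
  | S F' h =>
    -- an irreducible Lie algebra of matrices
    have hirr : ∀ U : Submodule ℂ (Fin 2 → ℂ),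
        (∀ X, ∀ v ∈ U, entS n P α i F' σ X *ᵥ v ∈ U) → U = ⊥ ∨ U = ⊤ :=
      fun U hU => ent_irr n P α hϖ hB hA i F' σ U
        (fun X hX v hv => hU (mkS n P α X hX) v hv)
    have h1 : Z ∈ LinearMap.range (entS n P α i F' σ) := by
      refine sl2_mem _ ?_ ?_ ?_ Z hZ
      · rintro _ ⟨X, rfl⟩ _ ⟨Y, rfl⟩
        exact ⟨brS n P α X Y, entS_br n P α i F' σ X Y⟩
      · intro v hv
        by_contra hcon
        push Not at hcon
        rcases hirr (Submodule.span ℂ {v}) (by
          intro X w hw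
          obtain ⟨a, rfl⟩ := Submodule.mem_span_singleton.mp hw
          obtain ⟨c, hc⟩ := hcon _ ⟨X, rfl⟩
          rw [Matrix.mulVec_smul, hc]
          exact Submodule.smul_mem _ _ (Submodule.smul_mem _ _
            (Submodule.mem_span_singleton_self v))) with h | h
        · exact hv ((Submodule.span_singleton_eq_bot).mp h)
        · have h2 : finrank ℂ (Submodule.span ℂ {v}) = 1 := finrank_span_singleton hv
          rw [h, finrank_top, Module.finrank_fin_fun] at h2
          omega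
      · intro t ht
        obtain ⟨c, hc⟩ := Module.End.exists_eigenvalue (Matrix.toLin' t)
        refine ⟨c, ?_⟩
        rcases hirr (LinearMap.ker (Matrix.toLin' t - c • LinearMap.id)) (by
          intro X v hv
          rw [LinearMap.mem_ker, LinearMap.sub_apply, LinearMap.smul_apply, LinearMap.id_apply,
            Matrix.toLin'_apply, sub_eq_zero] at hv ⊢
          rw [Matrix.mulVec_mulVec, ← ht _ ⟨X, rfl⟩, ← Matrix.mulVec_mulVec, hv,
            Matrix.mulVec_smul]) with h | h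
        · exfalso
          obtain ⟨v, hv⟩ := hc.exists_hasEigenvector
          apply hv.2
          have h3 : v ∈ LinearMap.ker (Matrix.toLin' t - c • LinearMap.id) := by
            rw [LinearMap.mem_ker, LinearMap.sub_apply, LinearMap.smul_apply, LinearMap.id_apply,
              hv.apply_eq_smul, sub_self]
          rw [h] at h3
          exact (Submodule.mem_bot ℂ).mp h3
        · have h3 : Matrix.toLin' t = c • LinearMap.id := by
            apply LinearMap.ext
            intro v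
            have h4 : v ∈ LinearMap.ker (Matrix.toLin' t - c • LinearMap.id) := by
              rw [h]; trivial
            rw [LinearMap.mem_ker, LinearMap.sub_apply, sub_eq_zero] at h4
            exact h4
          have h4 : t = Matrix.toLin'.symm (c • LinearMap.id) := by
            rw [← h3, LinearEquiv.symm_apply_apply]
          rw [h4, map_smul]
          congr 1
          exact LinearMap.toMatrix'_id
    obtain ⟨X, hX⟩ := h1
    exact ⟨X, hX⟩
  | Q F' =>
    have hirr : ∀ U : Submodule ℂ (Fin 4 → ℂ),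
        (∀ X, ∀ v ∈ U, entS n P α i F'.toUF σ X *ᵥ v ∈ U) → U = ⊥ ∨ U = ⊤ :=
      fun U hU => ent_irr n P α hϖ hB hA i F'.toUF σ U
        (fun X hX v hv => hU (mkS n P α X hX) v hv)
    have hpol : ∀ X, GSO (F'.sf σ) (entS n P α i F'.toUF σ X) (cS n P α X) :=
      fun X => F'.gso σ (symI n P α (vl_inv n P α X) i)
    obtain ⟨X, hX⟩ := comp_surj (F'.sp σ) (cS n P α) (entS n P α i F'.toUF σ) hpol hirr
      (brS n P α) (entS_br n P α i F'.toUF σ) (cS_br n P α) ε Z hZ
    exact ⟨X, hX⟩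
  | R F' => rw [hF] at ht; rcases ht with ht | ht <;> exact ht.elim
  | T F' => rw [hF] at ht; rcases ht with ht | ht <;> exact ht.elim

include hϖ hB hA in
/-- the two representations of a place of kind `Q` are not conjugate -/
theorem AS_not_conj (s : Emb K) (hs : (F s.1).isQ) :
    ¬ ConjRep (AS n P α F) (s, (0 : Fin 2)) (s, (1 : Fin 2)) := by
  obtain ⟨i, σ⟩ := s
  simp only at hs
  have hAS : ∀ ε X, AS n P α F (⟨i, σ⟩, ε) X =
    (F i).A σ ε ((vl n P α X).1 i, (vl n P α X).2) := fun ε X => rfl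
  rintro ⟨Q, hQ, h⟩
  simp only [hAS] at h
  cases hF : F i with
  | S F' h' => rw [hF] at hs; exact hs.elim
  | Q F' =>
    rw [hF] at h
    have hirr : ∀ U : Submodule ℂ (Fin 4 → ℂ),
        (∀ X, ∀ v ∈ U, entS n P α i F'.toUF σ X *ᵥ v ∈ U) → U = ⊥ ∨ U = ⊤ :=
      fun U hU => ent_irr n P α hϖ hB hA i F'.toUF σ U
        (fun X hX v hv => hU (mkS n P α X hX) v hv)
    have hpol : ∀ X, GSO (F'.sf σ) (entS n P α i F'.toUF σ X) (cS n P α X) :=
      fun X => F'.gso σ (symI n P α (vl_inv n P α X) i)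
    exact comp_not_conj (F'.sp σ) (cS n P α) (entS n P α i F'.toUF σ) hpol hirr ⟨Q, hQ, h⟩
  | R F' => rw [hF] at hs; exact hs.elim
  | T F' => rw [hF] at hs; exact hs.elim

end family

end Pool.Agent.Helper8.D
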