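import Pool.Agent.Helper7.CMTypes2

/-!
Abelian varieties of type III, and Hodge classes.
-/

namespace Pool.Agent.GPC

/-- `End(A) ⊗ ℚ` is the quaternion algebra `K + K j`, where `K` is a CM field,
`j x = conj(x) j` for `x` in `K`, and `j^2` is in `K`; the Rosati involution is complex conjugation
on `K` and maps `j` to `-j`; and `dim A = m [K : ℚ]`. (In other words, `A` is of type III in
Albert's classification, and `dim A = 2 m [F : ℚ]` for the centre `F` of `End(A) ⊗ ℚ`, the maximal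
real subfield of `K`; the first homology of `A` has rank `m` over `End(A) ⊗ ℚ`.) -/
structure DefQuat (A : AbVar) (K : Type) [Field K] [NumberField K] [NumberField.IsCMField K]
    (m : ℕ) where
  ρ : K → A.H1 → A.H1
  j : A.H1 → A.H1
  b : K
  one : ∀ v, ρ 1 v = v
  mul : ∀ x y v, ρ (x * y) v = ρ x (ρ y v)
  add : ∀ x y v, ρ (x + y) v = ρ x v + ρ y v
  degree : m * Module.finrank ℚ K = A.g
  endo : ∀ x, A.IsEnd (ρ x)
  endo_j : A.IsEnd j
  conj_j : ∀ x v, j (ρ x v) = ρ (cmConj K x) (j v)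
  sq_j : ∀ v, j (j v) = ρ b v
  rosati : ∀ x, A.IsAdjoint (ρ x) (ρ (cmConj K x))
  rosati_j : ∀ u v, A.pol (j u) v = - A.pol u (j v)
  ne_zero : b ≠ 0
  all_endo : ∀ f, A.IsEnd f → ∃ x y, ∀ v, f v = ρ x v + ρ y (j v)

/-- `A` is of type III, `K` is a maximal subfield of `End(A) ⊗ ℚ` and `dim A = m [K : ℚ]`. -/
def IsTypeThree (A : AbVar) (K : Type) [Field K] [NumberField K] (m : ℕ) : Prop :=
  ∃ _ : NumberField.IsCMField K, Nonempty (DefQuat A K m)

/-- `α` is a Hodge class: it is `(2πi)^k` times a rational class and lies in the step `F^k` of the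
Hodge filtration on `H^{2k}(X, ℂ)`, that is, it vanishes on tuples of vectors more than `k` of which
lie in `F^0 H_1(X, ℂ)`. -/
def IsHodge {I : Type} (A : I → AbVar) (n : I → ℕ) (k : ℕ) (α : Form A n (2 * k)) : Prop :=
  (∀ v : Fin (2 * k) → H1 A n, (∀ r, IsBetti A n (v r)) →
    ∃ c : ℚ, α v = (2 * Real.pi * Complex.I) ^ k * c) ∧
  ∀ (v : Fin (2 * k) → H1 A n) (J : Finset (Fin (2 * k))), k < J.card →
    (∀ r ∈ J, IsFil A n (v r)) → α v = 0

end Pool.Agent.GPC
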