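import Pool.Agent.Helper7.J4
import Pool.Agent.Helper7.FamilyB
import Pool.Agent.Helper7.ActForm

/-!
Counting slots: the sum of the weights of the Hodge cocharacter, and a parity lemma.
-/

namespace Pool.Agent.Helper8.D

open Module NumberField Pool.Agent.Helper7
open Pool.Agent.GPC (Emb)

section parity

variable {W : Type*} [AddCommGroup W] [Module ℂ W] {k : ℕ}
  (α : MultilinearMap ℂ (fun _ : Fin (2 * k) => W) ℂ) (M : Module.End ℂ W)

/-- the slots on which an operator killing the form is an involution are even in number -/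
lemma even_card (hM : actForm M α = 0) (v : Fin (2 * k) → W) (J : Finset (Fin (2 * k)))
    (hJ : ∀ r ∈ J, M (M (v r)) = v r) (hJ' : ∀ r, r ∉ J → M (v r) = 0) (hne : α v ≠ 0) :
    Even J.card := by
  classical
  by_contra hodd
  apply hne
  have key : ∀ (T : Finset (Fin (2 * k))), α (fun r => if r ∈ T then
      (if r ∈ J then (1 / 2 : ℂ) • (v r + M (v r)) else v r) else
      (if r ∈ J then (1 / 2 : ℂ) • (v r - M (v r)) else 0)) = 0 := by
    intro T
    by_cases h1 : ∃ r, r ∉ J ∧ r ∉ T
    · obtain ⟨r, hrJ, hrT⟩ := h1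
      refine α.map_coord_zero r ?_
      show (if r ∈ T then _ else (if r ∈ J then _ else (0 : W))) = 0
      rw [if_neg hrT, if_neg hrJ]
    · push Not at h1
      obtain ⟨w, hw⟩ : ∃ w : Fin (2 * k) → W,
        w = fun r => if r ∈ T then
          (if r ∈ J then (1 / 2 : ℂ) • (v r + M (v r)) else v r) else
          (if r ∈ J then (1 / 2 : ℂ) • (v r - M (v r)) else 0) := ⟨_, rfl⟩
      rw [← hw]
      have hw' : ∀ r, M (w r) = (if r ∈ J then (if r ∈ T then (1 : ℂ) else -1) else 0) • w r := by
        intro r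
        have h3 : w r = if r ∈ T then
          (if r ∈ J then (1 / 2 : ℂ) • (v r + M (v r)) else v r) else
          (if r ∈ J then (1 / 2 : ℂ) • (v r - M (v r)) else 0) := by rw [hw]
        by_cases hr : r ∈ J
        · by_cases hT : r ∈ T
          · rw [h3, if_pos hr, if_pos hT, if_pos hT, if_pos hr, map_smul, map_add, hJ r hr,
              one_smul, add_comm]
          · rw [h3, if_pos hr, if_neg hT, if_neg hT, if_pos hr, if_pos hr, map_smul, map_sub,
              hJ r hr, neg_one_smul, ← smul_neg, neg_sub]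
        · have hT : r ∈ T := h1 r hr
          rw [h3, if_neg hr, if_pos hT, if_neg hr, hJ' r hr, zero_smul]
      have e := congrArg (fun g => g w) hM
      simp only [actForm_apply] at e
      have e0 : (0 : MultilinearMap ℂ (fun _ : Fin (2 * k) => W) ℂ) w = 0 := rfl
      rw [e0] at e
      have e1 : ∀ r, α (Function.update w r (M (w r))) =
          (if r ∈ J then (if r ∈ T then (1 : ℂ) else -1) else 0) * α w := by
        intro r
        rw [hw', α.map_update_smul, Function.update_eq_self, smul_eq_mul]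
      rw [Finset.sum_congr rfl fun r _ => e1 r, ← Finset.sum_mul] at e
      rcases mul_eq_zero.mp e with h | h
      · exfalso
        apply hodd
        have e2 : ∑ r, (if r ∈ J then (if r ∈ T then (1 : ℂ) else -1) else 0) =
            ((J.filter (· ∈ T)).card : ℂ) - ((J.filter (· ∉ T)).card : ℂ) := by
          rw [← Finset.sum_filter, Finset.filter_mem_eq_inter, Finset.univ_inter,
            ← Finset.sum_filter_add_sum_filter_not J (· ∈ T)]
          rw [Finset.sum_congr rfl (g := fun _ => (1 : ℂ)) (fun r hr => by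
            rw [if_pos (Finset.mem_filter.mp hr).2])]
          rw [Finset.sum_congr (s₁ := J.filter (fun x => ¬ x ∈ T)) rfl (g := fun _ => (-1 : ℂ))
            (fun r hr => by rw [if_neg (Finset.mem_filter.mp hr).2])]
          simp [sub_eq_add_neg]
        rw [e2, sub_eq_zero] at h
        have h2 : (J.filter (· ∈ T)).card = (J.filter (· ∉ T)).card := by exact_mod_cast h
        have h3 := Finset.card_filter_add_card_filter_not (s := J) (fun r => r ∈ T)
        exact ⟨_, by rw [← h3, ← h2]⟩
      · exact h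
  have e : v = (fun r => if r ∈ J then (1 / 2 : ℂ) • (v r + M (v r)) else v r) +
      (fun r => if r ∈ J then (1 / 2 : ℂ) • (v r - M (v r)) else 0) := by
    funext r
    rw [Pi.add_apply]
    by_cases hr : r ∈ J
    · rw [if_pos hr, if_pos hr]
      module
    · rw [if_neg hr, if_neg hr, add_zero]
  conv_lhs => rw [e]
  rw [α.map_add_univ]
  refine Finset.sum_eq_zero fun T _ => ?_
  have h := key T
  have e5 : (T.piecewise (fun r => if r ∈ J then (1 / 2 : ℂ) • (v r + M (v r)) else v r)
      (fun r => if r ∈ J then (1 / 2 : ℂ) • (v r - M (v r)) else 0)) =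
      fun r => if r ∈ T then
      (if r ∈ J then (1 / 2 : ℂ) • (v r + M (v r)) else v r) else
      (if r ∈ J then (1 / 2 : ℂ) • (v r - M (v r)) else 0) := by
    funext r
    by_cases hr : r ∈ T
    · rw [Finset.piecewise_eq_of_mem _ _ _ hr, if_pos hr]
    · rw [Finset.piecewise_eq_of_notMem _ _ _ hr, if_neg hr]
  rw [e5]
  exact h

end parity

section balance

variable {I : Type} [Fintype I] [DecidableEq I] {n : I → ℕ}
  {K : I → Type} [∀ i, Field (K i)] [∀ i, NumberField (K i)]

/-- the sum of the weights of the Hodge cocharacter over a balanced pattern -/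
theorem balance (T : I → Prop)
    (hcx : ∀ i, T i → ∀ σ : K i →+* ℂ, ComplexEmbedding.conjugate σ ≠ σ)
    {G : Type*} (w : Emb K → G → ℂ) (c : G → ℂ)
    (hw : ∀ t X, w t X + w (conjT t) X = c X) (hw' : ∀ t X, ¬ T t.1 → w t X = c X / 2)
    {k : ℕ} (p : Fin (2 * k) → At n K)
    (hinj : ∀ r r', T (p r).1 → p r = p r' → r = r')
    (heven : ∀ J : Finset (Fin (2 * k)), (∀ r, r ∈ J ↔ ¬ T (p r).1) → Even J.card)
    (hwt : ∀ X, ∑ r, w (pl n (p r)) X = k * c X)
    (hNE : ∀ z : Emb K → ℤ, (∀ t, z (conjT t) = - z t) → (∀ t, ¬ T t.1 → z t = 0) →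
      (∀ X, ∑ t, (z t : ℂ) * w t X = 0) → (∀ t, |z t| ≤ n t.1) →
      (∃ m : ℤ, ∑ t, |z t| = 4 * m) → ∑ t, |z t| ≤ 4 * k → ∀ t, z t = 0)
    (ν : Emb K → ℂ) (hν : ∀ t, ν t + ν (conjT t) = 1) (hν' : ∀ t, ¬ T t.1 → ν t = 1 / 2) :
    ∑ r, ν (pl n (p r)) = k := by
  classical
  obtain ⟨q, hq⟩ : ∃ q : Fin (2 * k) → Emb K, q = fun r => pl n (p r) := ⟨_, rfl⟩
  have hq' : ∀ r, pl n (p r) = q r := fun r => by rw [hq]
  obtain ⟨d, hd⟩ : ∃ d : Emb K → ℕ, ∀ t, d t =
      (Finset.univ.filter (fun r => q r = t)).card := ⟨_, fun _ => rfl⟩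
  -- sums over slots
  have hsum : ∀ f : Emb K → ℂ, ∑ r, f (q r) = ∑ t, (d t : ℂ) * f t := by
    intro f
    rw [← Finset.sum_fiberwise_of_maps_to (s := Finset.univ) (t := Finset.univ) (g := q)
      (fun r _ => Finset.mem_univ _)]
    refine Finset.sum_congr rfl fun t _ => ?_
    rw [hd, ← nsmul_eq_mul, ← Finset.sum_const]
    exact Finset.sum_congr rfl fun r hr => by rw [(Finset.mem_filter.mp hr).2]
  let z : Emb K → ℤ := fun t => if T t.1 then (d t : ℤ) - d (conjT t) else 0
  have hzT : ∀ t, T t.1 → z t = (d t : ℤ) - d (conjT t) := fun t h => if_pos h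
  have hz0 : ∀ t, ¬ T t.1 → z t = 0 := fun t h => if_neg h
  have hTc : ∀ t : Emb K, T (conjT t).1 ↔ T t.1 := fun t => Iff.rfl
  have hzc : ∀ t, z (conjT t) = - z t := by
    intro t
    by_cases h : T t.1
    · rw [hzT t h, hzT (conjT t) h, conjT_conjT]; ring
    · rw [hz0 t h, hz0 (conjT t) h, neg_zero]
  -- totals
  let N : Finset (Emb K) := Finset.univ.filter (fun t => T t.1)
  have hNc : ∀ t ∈ N, conjT t ∈ N := by
    intro t ht
    rw [Finset.mem_filter] at ht ⊢
    exact ⟨Finset.mem_univ _, ht.2⟩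
  have hNne : ∀ t ∈ N, conjT t ≠ t := by
    rintro ⟨i, σ⟩ ht h
    exact hcx i (Finset.mem_filter.mp ht).2 σ
      (sigma_mk_injective (β := fun i => (K i →+* ℂ)) h)
  have hsymm : ∀ f : Emb K → ℂ, ∑ t ∈ N, f (conjT t) = ∑ t ∈ N, f t := fun f =>
    Finset.sum_nbij' conjT conjT hNc hNc (fun t _ => conjT_conjT t)
        (fun t _ => conjT_conjT t) (fun t _ => rfl)
  have hcount : ∑ t ∈ N, (d t : ℂ) + ((Finset.univ.filter (fun r => ¬ T (p r).1)).card : ℂ) =
      2 * k := by
    have h1 : ∑ t ∈ N, d t = (Finset.univ.filter (fun r => T (q r).1)).card := by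
      rw [Finset.card_eq_sum_card_fiberwise (f := q) (t := N) (fun r hr => by
        rw [Finset.mem_coe, Finset.mem_filter] at hr ⊢
        exact ⟨Finset.mem_univ _, hr.2⟩)]
      refine Finset.sum_congr rfl fun t ht => ?_
      rw [hd]
      congr 1
      ext r
      simp only [Finset.mem_filter, Finset.mem_univ, true_and]
      constructor
      · intro h
        exact ⟨by rw [h]; exact (Finset.mem_filter.mp ht).2, h⟩
      · intro h; exact h.2
    have h2 : (Finset.univ.filter (fun r => T (q r).1)) =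
        (Finset.univ.filter (fun r => T (p r).1)) := by
      rw [hq]
    have h3 := Finset.card_filter_add_card_filter_not (s := (Finset.univ : Finset (Fin (2 * k))))
      (fun r => T (p r).1)
    rw [Finset.card_univ, Fintype.card_fin, ← h2, ← h1] at h3
    have h4 : ((∑ t ∈ N, d t + (Finset.univ.filter (fun r => ¬ T (p r).1)).card : ℕ) : ℂ) =
        ((2 * k : ℕ) : ℂ) := by rw [h3]
    push_cast at h4
    exact h4
  -- any function with constant sums over conjugate places, half of it outside of `T`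
  have hsplit : ∀ (f : Emb K → ℂ) (a : ℂ), (∀ t, f t + f (conjT t) = a) →
      (∀ t, ¬ T t.1 → f t = a / 2) →
      2 * ∑ r, f (q r) = 2 * k * a + ∑ t, (z t : ℂ) * f t := by
    intro f a hf hf'
    have e1 : ∑ r, f (q r) = ∑ r ∈ Finset.univ.filter (fun r => T (q r).1), f (q r) +
        ((Finset.univ.filter (fun r => ¬ T (p r).1)).card : ℂ) * (a / 2) := by
      rw [← Finset.sum_filter_add_sum_filter_not Finset.univ (fun r => T (q r).1)]
      congr 1
      rw [← nsmul_eq_mul, ← Finset.sum_const]
      have h2 : (Finset.univ.filter (fun r => ¬ T (q r).1)) =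
        (Finset.univ.filter (fun r => ¬ T (p r).1)) := by
        rw [hq]
      rw [← h2]
      exact Finset.sum_congr rfl fun r hr => hf' _ (Finset.mem_filter.mp hr).2
    have e2 : ∑ r ∈ Finset.univ.filter (fun r => T (q r).1), f (q r) =
        ∑ t ∈ N, (d t : ℂ) * f t := by
      have h1 := hsum (fun t => if T t.1 then f t else 0)
      have h2 : ∑ r ∈ Finset.univ.filter (fun r => T (q r).1), f (q r) =
          ∑ r, (if T (q r).1 then f (q r) else 0) := by rw [Finset.sum_filter]
      have h3 : ∑ t ∈ N, (d t : ℂ) * f t = ∑ t, (d t : ℂ) * (if T t.1 then f t else 0) := by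
        rw [Finset.sum_filter]
        refine Finset.sum_congr rfl fun t _ => ?_
        split_ifs <;> simp
      rw [h2, h3]
      exact h1
    have e3 : ∑ t, (z t : ℂ) * f t = ∑ t ∈ N, (d t : ℂ) * f t -
        ∑ t ∈ N, (d (conjT t) : ℂ) * f t := by
      rw [← Finset.sum_sub_distrib, Finset.sum_filter]
      refine Finset.sum_congr rfl fun t _ => ?_
      by_cases h : T t.1
      · rw [if_pos h, hzT t h]; push_cast; ring
      · rw [if_neg h, hz0 t h]; simp
    have e4 : ∑ t ∈ N, (d (conjT t) : ℂ) * f t = ∑ t ∈ N, (d t : ℂ) * (a - f t) := by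
      rw [← hsymm (fun t => (d (conjT t) : ℂ) * f t)]
      refine Finset.sum_congr rfl fun t _ => ?_
      show (d (conjT (conjT t)) : ℂ) * f (conjT t) = _
      rw [conjT_conjT, ← hf t]
      ring
    have e5 : ∑ t ∈ N, (d t : ℂ) * (a - f t) = (∑ t ∈ N, (d t : ℂ)) * a -
        ∑ t ∈ N, (d t : ℂ) * f t := by
      rw [Finset.sum_mul, ← Finset.sum_sub_distrib]
      exact Finset.sum_congr rfl fun t _ => by ring
    rw [e1, e2, e3, e4, e5]
    linear_combination a * hcount
  -- the vector of differences is a relation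
  have hzrel : ∀ X, ∑ t, (z t : ℂ) * w t X = 0 := by
    intro X
    have h1 := hsplit (fun t => w t X) (c X) (fun t => hw t X) (fun t h => hw' t X h)
    have h2 := hwt X
    simp only [hq'] at h2
    rw [h2] at h1
    linear_combination -h1
  have hdn : ∀ t : Emb K, T t.1 → d t ≤ n t.1 := by
    intro t ht
    rw [hd]
    have hsub : (Finset.univ.filter (fun r => q r = t)).image p ⊆
        Finset.univ.image (fun m : Fin (n t.1) => (⟨t.1, m, t.2⟩ : At n K)) := by
      intro a ha
      obtain ⟨r, hr, rfl⟩ := Finset.mem_image.mp ha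
      have h2 := (Finset.mem_filter.mp hr).2
      rw [← hq'] at h2
      generalize p r = a at h2
      obtain ⟨i, m, σ⟩ := a
      subst h2
      exact Finset.mem_image.mpr ⟨m, Finset.mem_univ _, rfl⟩
    calc (Finset.univ.filter (fun r => q r = t)).card
        = ((Finset.univ.filter (fun r => q r = t)).image p).card := by
          refine (Finset.card_image_of_injOn ?_).symm
          intro r hr r' _ h
          have h2 := (Finset.mem_filter.mp (Finset.mem_coe.mp hr)).2
          refine hinj r r' ?_ h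
          have h3 : T (q r).1 := by rw [h2]; exact ht
          rw [← hq'] at h3
          exact h3
      _ ≤ _ := Finset.card_le_card hsub
      _ ≤ _ := Finset.card_image_le
      _ = n t.1 := by rw [Finset.card_univ, Fintype.card_fin]
  have hzn : ∀ t, |z t| ≤ n t.1 := by
    intro t
    by_cases h : T t.1
    · have h2 := hdn t h
      have h3 : d (conjT t) ≤ n t.1 := hdn (conjT t) h
      rw [hzT t h, abs_le]
      constructor <;> omega
    · rw [hz0 t h]; simp
  -- parity
  have hpar : (∃ m : ℤ, ∑ t, |z t| = 4 * m) ∧ ∑ t, |z t| ≤ 4 * k := by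
    have e1 : ∑ t, |z t| = ∑ t ∈ N, |z t| := by
      symm
      refine Finset.sum_subset (Finset.subset_univ _) fun t _ ht => ?_
      rw [Finset.mem_filter, not_and] at ht
      rw [hz0 t (ht (Finset.mem_univ _)), abs_zero]
    have e2 : ∀ t ∈ N, |z t| = (d t : ℤ) + d (conjT t) -
        2 * ((min (d t) (d (conjT t)) : ℕ) : ℤ) := by
      intro t ht
      rw [hzT t (Finset.mem_filter.mp ht).2]
      rcases le_total (d t) (d (conjT t)) with h | h
      · rw [min_eq_left h, abs_of_nonpos (by omega)]; ring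
      · rw [min_eq_right h, abs_of_nonneg (by omega)]; ring
    obtain ⟨m1, hm1⟩ := even_sum_of_symm N conjT conjT_conjT hNc hNne
      (fun t => ((min (d t) (d (conjT t)) : ℕ) : ℤ)) (fun t _ => by
        show ((min (d (conjT t)) (d (conjT (conjT t))) : ℕ) : ℤ) = _
        rw [conjT_conjT, min_comm])
    have e3 : ∑ t ∈ N, (d (conjT t) : ℤ) = ∑ t ∈ N, (d t : ℤ) := by
      refine Finset.sum_nbij' conjT conjT hNc hNc (fun t _ => conjT_conjT t)
        (fun t _ => conjT_conjT t) (fun t _ => rfl)
    have e4 : ∑ t ∈ N, (d t : ℤ) = 2 * k -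
        (Finset.univ.filter (fun r => ¬ T (p r).1)).card := by
      have h1 : ((∑ t ∈ N, (d t : ℤ) : ℤ) : ℂ) =
          ((2 * k - (Finset.univ.filter (fun r => ¬ T (p r).1)).card : ℤ) : ℂ) := by
        push_cast
        linear_combination hcount
      exact_mod_cast h1
    obtain ⟨m2, hm2⟩ := heven (Finset.univ.filter (fun r => ¬ T (p r).1))
      (fun r => by rw [Finset.mem_filter, and_iff_right (Finset.mem_univ r)])
    have hm2' : (((Finset.univ.filter (fun r => ¬ T (p r).1)).card : ℕ) : ℤ) = m2 + m2 := by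
      rw [← Nat.cast_add, ← hm2]
    refine ⟨⟨k - m2 - m1, ?_⟩, ?_⟩
    · rw [e1, Finset.sum_congr rfl e2, Finset.sum_sub_distrib,
        Finset.sum_add_distrib, ← Finset.mul_sum, e3, e4, hm1]
      rw [hm2']
      ring
    · have e5 : ∑ t ∈ N, |z t| ≤ ∑ t ∈ N, ((d t : ℤ) + d (conjT t)) := by
        refine Finset.sum_le_sum fun t ht => ?_
        rw [e2 t ht]
        have : (0 : ℤ) ≤ ((min (d t) (d (conjT t)) : ℕ) : ℤ) := by positivity
        omega
      rw [e1]
      refine e5.trans ?_
      rw [Finset.sum_add_distrib, e3, e4, hm2']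
      omega
  have hz := hNE z hzc hz0 hzrel hzn hpar.1 hpar.2
  have h1 := hsplit ν 1 hν hν'
  have h2 : ∑ t, (z t : ℂ) * ν t = 0 := by
    refine Finset.sum_eq_zero fun t _ => ?_
    rw [hz t]; simp
  rw [h2, add_zero, mul_one] at h1
  simp only [hq']
  exact mul_left_cancel₀ two_ne_zero h1

end balance

end Pool.Agent.Helper8.D
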