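import Pool.Agent.Helper7.ActForm

/-!
Transfer of the invariance of a multilinear form from a set of symmetries to an operator which
agrees, slotwise and up to scalars, with symmetries.
-/

namespace Pool.Agent.Helper8

open Module Pool.Agent.Helper7

section transfer

variable {W : Type*} [AddCommGroup W] [Module ℂ W] {Q : Type*} [Fintype Q]
  {G : Type*} {k : ℕ} (α : MultilinearMap ℂ (fun _ : Fin (2 * k) => W) ℂ)
  (L : G → Module.End ℂ W) (c : G → ℂ) (E : Q → Module.End ℂ W)
  (θ : Q → G → ℂ) (N : Module.End ℂ W) (ν : Q → ℂ)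
  (hα : ∀ X, actForm (L X) α = (k * c X) • α)
  (hE : ∀ w, ∑ q, E q w = w)
  (hNE : ∀ q w, E q (N w) = N (E q w))
  (h1 : ∀ X, ∃ Y, c Y = 0 ∧ ∀ q w, L Y (E q w) = L X (E q w) - θ q X • E q w)
  (h2 : ∃ Y, c Y = 0 ∧ ∀ q w, L Y (E q w) = N (E q w) - ν q • E q w)
  (h3 : ∀ (p : Fin (2 * k) → Q) (v : Fin (2 * k) → W), α (fun r => E (p r) (v r)) ≠ 0 →
    (∀ X, ∑ r, θ (p r) X = k * c X) → ∑ r, ν (p r) = k)

omit [Fintype Q] in
include hα in
/-- an operator which agrees slotwise with a symmetry of multiplier zero up to scalars -/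
lemma transfer_split (Y : G) (hc : c Y = 0) (M : Module.End ℂ W) (t : Q → ℂ)
    (hY : ∀ q w, L Y (E q w) = M (E q w) - t q • E q w)
    (p : Fin (2 * k) → Q) (v : Fin (2 * k) → W) :
    ∑ r, α (Function.update (fun r => E (p r) (v r)) r (M (E (p r) (v r)))) =
      (∑ r, t (p r)) * α (fun r => E (p r) (v r)) := by
  have e := congrArg (fun g => g (fun r => E (p r) (v r))) (hα Y)
  simp only [actForm_apply, hc, mul_zero, zero_smul, _root_.zero_apply] at e
  have hself : ∀ r, Function.update (fun r => E (p r) (v r)) r (E (p r) (v r)) =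
      fun r => E (p r) (v r) := fun r => Function.update_eq_self r _
  have e1 : ∀ r, α (Function.update (fun r => E (p r) (v r)) r (M (E (p r) (v r)))) =
      α (Function.update (fun r => E (p r) (v r)) r (L Y (E (p r) (v r)))) +
        t (p r) * α (fun r => E (p r) (v r)) := by
    intro r
    rw [hY, α.map_update_sub, α.map_update_smul, hself, smul_eq_mul, sub_add_cancel]
  rw [Finset.sum_congr rfl fun r _ => e1 r, Finset.sum_add_distrib, e, zero_add, Finset.sum_mul]

include hα hE hNE h1 h2 h3 in
theorem transfer : actForm N α = (k : ℂ) • α := by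
  classical
  apply MultilinearMap.ext
  intro v
  rw [actForm_apply, _root_.smul_apply, smul_eq_mul]
  -- expansion into components
  have hexp : ∀ v : Fin (2 * k) → W, α v = ∑ p : Fin (2 * k) → Q, α (fun r => E (p r) (v r)) := by
    intro v
    have e : v = fun r => ∑ q, E q (v r) := by
      funext r
      rw [hE]
    conv_lhs => rw [e]
    exact α.map_sum (fun r q => E q (v r))
  have hcomp : ∀ p : Fin (2 * k) → Q,
      ∑ r, α (Function.update (fun r => E (p r) (v r)) r (N (E (p r) (v r)))) =
        k * α (fun r => E (p r) (v r)) := by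
    intro p
    obtain ⟨Y, hc, hYN⟩ := h2
    rw [transfer_split α L c E hα Y hc N ν hYN p v]
    by_cases hz : α (fun r => E (p r) (v r)) = 0
    · rw [hz, mul_zero, mul_zero]
    · rw [h3 p v hz]
      intro X
      obtain ⟨Y, hc, hYX⟩ := h1 X
      have f1 := transfer_split α L c E hα Y hc (L X) (fun q => θ q X) hYX p v
      have f2 := congrArg (fun g => g (fun r => E (p r) (v r))) (hα X)
      simp only [actForm_apply, _root_.smul_apply, smul_eq_mul] at f2
      rw [f1] at f2
      exact mul_right_cancel₀ hz f2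
  rw [hexp v, Finset.mul_sum]
  rw [Finset.sum_congr rfl fun r _ => hexp (Function.update v r (N (v r))), Finset.sum_comm]
  refine Finset.sum_congr rfl fun p _ => ?_
  rw [← hcomp p]
  refine Finset.sum_congr rfl fun r _ => ?_
  congr 1
  funext r'
  by_cases h : r' = r
  · subst h
    rw [Function.update_self, Function.update_self, hNE]
  · rw [Function.update_of_ne h, Function.update_of_ne h]

end transfer

end Pool.Agent.Helper8
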