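import Pool.Agent.Helper8.D.LinkDefs
import Pool.Agent.Helper8.D.Balance
import Pool.Agent.Helper8.D.Transfer

/-!
The element of the Hodge structure preserves the form, provided its normalised action lies in the
Lie algebra of symmetries.
-/

namespace Pool.Agent.Helper8.D

open Module NumberField LieAlgebra Pool.Agent.Helper7 Pool.Agent.Helper24 Matrix
open Pool.Agent.GPC (Emb)

attribute [local instance 100] LieRing.ofAssociativeRing

set_option linter.unusedSectionVars false

section family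

variable {I : Type} [Fintype I] [DecidableEq I] (n : I → ℕ)
  {κ : I → Type} [∀ i, Fintype (κ i)] [∀ i, DecidableEq (κ i)] {ϖ : ℂ}
  (P : ∀ i, PData (κ i) ϖ)
  {K : I → Type} [∀ i, Field (K i)] [∀ i, NumberField (K i)]
  {k : ℕ} (α : MultilinearMap ℂ (fun _ : Fin (2 * k) => HW κ n) ℂ)
  (F : ∀ i, Fac3 (P i) (K i))

/-- the underlying factors with fields of endomorphisms -/
noncomputable abbrev FU (i : I) : UF (P i) (K i) (F i).rk := (F i).toUF

/-- the projector to an atom -/
noncomputable def EU (t : At n K) : Module.End ℂ (HW κ n) :=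
  (slotL n t.1 t.2.1) ∘ₗ (proj (FU P F t.1).ρ t.2.2) ∘ₗ prL n t.1 t.2.1

lemma EU_apply (t : At n K) (u : HW κ n) :
    EU n P F t u = slotL n t.1 t.2.1 (proj (FU P F t.1).ρ t.2.2 (u t.1 t.2.1)) := rfl

lemma sum_EU (u : HW κ n) : ∑ t, EU n P F t u = u := by
  conv_rhs => rw [← sum_slot n u]
  rw [Fintype.sum_sigma]
  refine Finset.sum_congr rfl fun i _ => ?_
  rw [Fintype.sum_prod_type]
  refine Finset.sum_congr rfl fun m _ => ?_
  show ∑ σ, slotL n i m (proj (FU P F i).ρ σ (u i m)) = _
  rw [← map_sum, ← sum_proj_apply]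

/-- two pairs with the same normalised action -/
lemma eq_of_phi {X Y : GG κ} (h : phi P (FU P F) X = phi P (FU P F) Y) (i : I) (σ : K i →+* ℂ)
    (w : κ i → ℂ) : X.1 i (proj (FU P F i).ρ σ w) -
      ch P (FU P F) ⟨i, σ⟩ X • proj (FU P F i).ρ σ w =
      Y.1 i (proj (FU P F i).ρ σ w) - ch P (FU P F) ⟨i, σ⟩ Y • proj (FU P F i).ρ σ w := by
  have h1 := congrFun (congrArg (fun f => f (Pi.single i (proj (FU P F i).ρ σ w) : MM κ)) h) i
  simp only [phi_apply, Pi.single_eq_same] at h1
  rw [dd_proj, dd_proj] at h1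
  exact h1

lemma lift_EU (X : GG κ) (t : At n K) (u : HW κ n) : lift n X.1 (EU n P F t u) =
    slotL n t.1 t.2.1 (X.1 t.1 (proj (FU P F t.1).ρ t.2.2 (u t.1 t.2.1))) := by
  rw [EU_apply, lift_slot]

variable (hϖ : ϖ ≠ 0)
  (hB : ∀ v : Fin (2 * k) → HW κ n, (∀ r, IsRatP n P (v r)) → ∃ q : ℚ, α v = ϖ ^ k * q)
  (hA : ∀ v : Fin (2 * k) → HW κ n, (∀ r i m j, IsAlgebraic ℚ (v r i m j)) →
      IsAlgebraic ℚ (α v))

include hϖ hB hA in
lemma isKilling : IsKilling ℂ (LL n P (FU P F) α) := by
  have := LL_trivialRadical n P (FU P F) α hϖ hB hA (fun i => (F i).rk_pos)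
  infer_instance

include hϖ hB hA in
/-- symmetries without multiplier and weights, with a given normalised action -/
lemma lift_zero' (X : GG κ) (hX : IsInv n P α X) : ∃ Y, IsInv n P α Y ∧ Y.2 = 0 ∧
    ∀ t u, lift n Y.1 (EU n P F t u) = lift n X.1 (EU n P F t u) -
      ch P (FU P F) (pl n t) X • EU n P F t u := by
  obtain ⟨Y, hY, h1, h2, h3⟩ := perfect_lift n P (FU P F) α (isKilling n P α F hϖ hB hA)
    (elL n P (FU P F) α X hX)
  refine ⟨Y, hY, h2, fun t u => ?_⟩
  have h4 : phi P (FU P F) X = phi P (FU P F) Y := congrArg Subtype.val h1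
  have h5 := eq_of_phi P F h4 t.1 t.2.2 (u t.1 t.2.1)
  rw [h3 ⟨t.1, t.2.2⟩, zero_smul, sub_zero] at h5
  rw [lift_EU, lift_EU, ← h5, map_sub, map_smul, EU_apply]

include hϖ hB hA in
theorem assemble
    (hal : ∀ (v : Fin (2 * k) → HW κ n) (r r' : Fin (2 * k)), r ≠ r' → v r = v r' → α v = 0)
    (hcxT : ∀ i, (F i).isT → ∀ σ : K i →+* ℂ, ComplexEmbedding.conjugate σ ≠ σ)
    (h : GG κ) (hsym : ∀ i, Sym (P i) (h.1 i) h.2) (h1 : h.2 = 1)
    (hid : ∀ i v, h.1 i (h.1 i v) = h.1 i v)
    (hLL : ∃ Y, IsInv n P α Y ∧ phi P (FU P F) Y = phi P (FU P F) h)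
    (hNE : ∀ z : Emb K → ℤ, (∀ t, z (conjT t) = - z t) → (∀ t, ¬ (F t.1).isT → z t = 0) →
      (∀ X, IsInv n P α X → ∑ t, (z t : ℂ) * ch P (FU P F) t X = 0) → (∀ t, |z t| ≤ n t.1) →
      (∃ m : ℤ, ∑ t, |z t| = 4 * m) → ∑ t, |z t| ≤ 4 * k → ∀ t, z t = 0) :
    actForm (lift n h.1) α = (k : ℂ) • α := by
  classical
  -- a symmetry with the same normalised action as `h`
  obtain ⟨Y, hY, hY2, hYh⟩ : ∃ Y, IsInv n P α Y ∧ Y.2 = 0 ∧
      ∀ t u, lift n Y.1 (EU n P F t u) = lift n h.1 (EU n P F t u) -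
        ch P (FU P F) (pl n t) h • EU n P F t u := by
    obtain ⟨X, hX, hXh⟩ := hLL
    obtain ⟨Y, hY, hY2, hYX⟩ := lift_zero' n P α F hϖ hB hA X hX
    refine ⟨Y, hY, hY2, fun t u => ?_⟩
    have h6 := congrArg (slotL n t.1 t.2.1) (eq_of_phi P F hXh t.1 t.2.2 (u t.1 t.2.1))
    rw [map_sub, map_sub, map_smul, map_smul] at h6
    rw [hYX, lift_EU, lift_EU, EU_apply]
    exact h6
  have hchh : ∀ t : Emb K, ¬ (F t.1).isT → ch P (FU P F) t h = 1 / 2 := by
    intro t ht
    have := (F t.1).ch_half ht t.2 (hsym t.1)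
    rw [h1] at this
    exact this
  have hchX : ∀ t : Emb K, ¬ (F t.1).isT → ∀ X, IsInv n P α X →
      ch P (FU P F) t X = X.2 / 2 := fun t ht X hX =>
    (F t.1).ch_half ht t.2 (symI n P α hX t.1)
  -- the operator `h` commutes with the projectors
  have hcomm : ∀ (t : Emb K) (v : κ t.1 → ℂ), h.1 t.1 (proj (FU P F t.1).ρ t.2 v) =
      proj (FU P F t.1).ρ t.2 (h.1 t.1 v) := fun t v =>
    comm_proj _ _ (fun x v => (hsym t.1).comm _ ((F t.1).toUF.hρ x) v) t.2 v
  -- `h` acts as a scalar at the places of kind `T`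
  have hsT : ∀ t : Emb K, (F t.1).isT → ∀ v, h.1 t.1 (proj (FU P F t.1).ρ t.2 v) =
      ch P (FU P F) t h • proj (FU P F t.1).ρ t.2 v := by
    rintro ⟨i, σ⟩ ht v
    have key : ∀ f : Fac3 (P i) (K i), f.isT → h.1 i (proj f.toUF.ρ σ v) =
        tw f.toUF σ (h.1 i) • proj f.toUF.ρ σ v := by
      intro f hf
      cases f with
      | S F' h' => exact hf.elim
      | Q F' => exact hf.elim
      | R F' => exact hf.elim
      | T F' =>
        show h.1 i (proj F'.ρ σ v) = tw F' σ (h.1 i) • proj F'.ρ σ v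
        rw [F'.proj_eq, Fin.sum_univ_one, map_smul,
          act_one F' _ ((hsym i).commF F') σ, smul_comm]
    exact key (F i) ht
  refine transfer (G := {X : GG κ // IsInv n P α X}) α (fun X => lift n X.1.1)
    (fun X => X.1.2) (EU n P F) (fun t X => ch P (FU P F) (pl n t) X.1) (lift n h.1)
    (fun t => ch P (FU P F) (pl n t) h) (fun X => X.2.form) (sum_EU n P F) ?_ ?_ ?_ ?_
  · intro t u
    rw [lift_EU, EU_apply, lift_apply, hcomm ⟨t.1, t.2.2⟩]
  · rintro ⟨X, hX⟩
    obtain ⟨Y, hY, hY2, hYX⟩ := lift_zero' n P α F hϖ hB hA X hX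
    exact ⟨⟨Y, hY⟩, hY2, hYX⟩
  · exact ⟨⟨Y, hY⟩, hY2, hYh⟩
  · intro p v hne hwt
    -- the slots of kind `T` are distinct
    have hinj : ∀ r r', (F (p r).1).isT → p r = p r' → r = r' := by
      intro r r' hT hp
      by_contra hrr
      apply hne
      have key : ∀ (t : At n K), (F t.1).isT → ∃ e : HW κ n, ∀ u, ∃ a : ℂ,
          EU n P F t u = a • e := by
        rintro ⟨i, m, σ⟩ ht
        have key' : ∀ f : Fac3 (P i) (K i), f.isT → ∃ e : κ i → ℂ, ∀ w, ∃ a : ℂ,
            proj f.toUF.ρ σ w = a • e := by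
          intro f hf
          cases f with
          | S F' h' => exact hf.elim
          | Q F' => exact hf.elim
          | R F' => exact hf.elim
          | T F' =>
            refine ⟨F'.e σ 0, fun w => ⟨F'.co σ 0 w, ?_⟩⟩
            show proj F'.ρ σ w = _
            rw [F'.proj_eq, Fin.sum_univ_one]
        obtain ⟨e, he⟩ := key' (F i) ht
        refine ⟨slotL n i m e, fun u => ?_⟩
        obtain ⟨a, ha⟩ := he (u i m)
        refine ⟨a, ?_⟩
        rw [EU_apply]
        show slotL n i m (proj (F i).toUF.ρ σ (u i m)) = _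
        rw [ha, map_smul]
      obtain ⟨e, he⟩ := key (p r) hT
      obtain ⟨a, ha⟩ := he (v r)
      obtain ⟨b, hb⟩ := he (v r')
      have hb' : EU n P F (p r') (v r') = b • e := by rw [← hp]; exact hb
      have e1 : (fun x => EU n P F (p x) (v x)) =
          Function.update (Function.update (fun x => EU n P F (p x) (v x)) r (a • e)) r'
            (b • e) := by
        funext x
        by_cases hx : x = r'
        · subst hx; rw [Function.update_self, hb']
        · rw [Function.update_of_ne hx]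
          by_cases hx' : x = r
          · subst hx'; rw [Function.update_self, ha]
          · rw [Function.update_of_ne hx']
      rw [e1, α.map_update_smul, Function.update_comm hrr, α.map_update_smul,
        hal _ r r' hrr, smul_zero, smul_zero]
      rw [Function.update_self, Function.update_of_ne (Ne.symm hrr), Function.update_self]
    have heven : ∀ J : Finset (Fin (2 * k)), (∀ r, r ∈ J ↔ ¬ (F (p r).1).isT) → Even J.card := by
      intro J hJ
      refine even_card α ((2 : ℂ) • lift n Y.1) ?_ (fun r => EU n P F (p r) (v r)) J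
        (fun r hr => ?_) (fun r hr => ?_) hne
      · rw [actForm_smul, hY.form, hY2, mul_zero, zero_smul, smul_zero]
      · have hT : ¬ (F (p r).1).isT := (hJ r).mp hr
        have e1 : ∀ u, ((2 : ℂ) • lift n Y.1) (EU n P F (p r) u) =
            EU n P F (p r) ((2 : ℂ) • lift n h.1 u - u) := by
          intro u
          rw [LinearMap.smul_apply, hYh, hchh _ hT, map_sub, map_smul]
          have e2 : lift n h.1 (EU n P F (p r) u) = EU n P F (p r) (lift n h.1 u) := by
            rw [lift_EU, EU_apply, lift_apply, hcomm ⟨(p r).1, (p r).2.2⟩]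
          rw [e2]
          module
        rw [e1, e1]
        congr 1
        have e3 : lift n h.1 (lift n h.1 (v r)) = lift n h.1 (v r) := by
          funext i m
          rw [lift_apply, lift_apply, hid]
        rw [map_sub, map_smul, e3]
        module
      · have hT : (F (p r).1).isT := by
          by_contra hcon
          exact hr ((hJ r).mpr hcon)
        rw [LinearMap.smul_apply, hYh, lift_EU, hsT ⟨(p r).1, (p r).2.2⟩ hT, map_smul,
          EU_apply, sub_self, smul_zero]
    exact balance (fun i => (F i).isT) hcxT (G := {X : GG κ // IsInv n P α X})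
      (fun t X => ch P (FU P F) t X.1) (fun X => X.1.2)
      (fun t X => ch_conj n P (FU P F) α (fun i => (F i).rk_pos) t X.1 X.2)
      (fun t X ht => hchX t ht X.1 X.2) p hinj heven hwt
      (fun z hz1 hz2 hz3 => hNE z hz1 hz2 (fun X hX => hz3 ⟨X, hX⟩))
      (fun t => ch P (FU P F) t h)
      (fun t => by
        have := tw_conj (F t.1).toUF (F t.1).rk_pos (h.1 t.1) ((hsym t.1).commF _) h.2
          (hsym t.1).pol t.2
        rw [h1] at this
        exact this)
      hchh

end family

end Pool.Agent.Helper8.D
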