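import Pool.Agent.Helper7.Bridge3
import Pool.Agent.Helper8.D.Setup
import Pool.Agent.Helper8.D.Types

/-!
From abelian varieties to factors.
-/

namespace Pool.Agent.Helper8.D

open Module NumberField Pool.Agent.Helper7 Pool.Agent.Helper24 Pool.Agent.GPC Matrix

set_option linter.unusedSectionVars false

variable {A : AbVar} {K : Type} [Field K] [NumberField K]

/-- the action as ring homomorphism -/
noncomputable def dqRho [IsCMField K] {m : ℕ} (C : DefQuat A K m) :
    K →+* Module.End ℂ A.H1 where
  toFun x := IsLinearMap.mk' _ (C.endo x).linear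
  map_one' := LinearMap.ext C.one
  map_mul' x y := LinearMap.ext (C.mul x y)
  map_add' x y := LinearMap.ext (C.add x y)
  map_zero' := LinearMap.ext fun v => by
    have h := C.add 0 0 v
    rw [add_zero] at h
    have h2 : C.ρ 0 v = 0 := by
      have h3 := congrArg (fun w => w - C.ρ 0 v) h
      simp only [sub_self, add_sub_cancel_right] at h3
      exact h3.symm
    exact h2

lemma dqRho_apply [IsCMField K] {m : ℕ} (C : DefQuat A K m) (x : K) (v : A.H1) :
    dqRho C x v = C.ρ x v := rfl

/-- the operator `j` -/
noncomputable def dqJ [IsCMField K] {m : ℕ} (C : DefQuat A K m) : Module.End ℂ A.H1 :=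
  IsLinearMap.mk' _ C.endo_j.linear

lemma dqJ_apply [IsCMField K] {m : ℕ} (C : DefQuat A K m) (v : A.H1) : dqJ C v = C.j v := rfl

lemma exists_conj_ne (K : Type) [Field K] [NumberField K] [IsCMField K] :
    ∃ x : K, cmConj K x ≠ x := by
  by_contra hcon
  push Not at hcon
  obtain ⟨σ⟩ : Nonempty (K →+* ℂ) := inferInstance
  refine IsTotallyComplex.complexEmbedding_not_isReal σ
    (ComplexEmbedding.isReal_iff.mpr (RingHom.ext fun x => ?_))
  rw [ComplexEmbedding.conjugate_coe_eq, ← IsCMField.complexEmbedding_complexConj K σ x]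
  exact congrArg σ (hcon x)

theorem exists_QF [IsCMField K] {m : ℕ} (C : DefQuat A K m) (r : ℕ) (hr : r = 2 * m) :
    ∃ F : QF (pData A) K r, (∀ x v, F.ρ x v = C.ρ x v) ∧ ∀ v, F.j v = C.j v := by
  have hQ : ∀ x, ∀ v ∈ (pData A).Q, dqRho C x v ∈ (pData A).Q :=
    fun x v hv => (isDRB_of_isEnd A _ (C.endo x)).rat v hv
  obtain ⟨lam, h1, h2, eb, h3⟩ := exists_Kbasis (pData A) (dqRho C) hQ r
    (by rw [hr, card_index, ← C.degree]; ring)
  have hend : ∀ f : Module.End ℂ A.H1, IsDRB (pData A) (pData A) f →
      ∃ x y, ∀ v, f v = dqRho C x v + dqRho C y (dqJ C v) := by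
    intro f hf
    exact C.all_endo f (isEnd_of_isDRB A f hf)
  exact ⟨{  ρ := dqRho C
            hρ := fun x => isDRB_of_isEnd A _ (C.endo x)
            cc := cmConj K
            hcc := fun σ x => IsCMField.complexEmbedding_complexConj K σ x
            hros := fun x u v => C.rosati x u v
            hcen := fun f hf hc => by
              obtain ⟨x, y, hxy⟩ := hend f hf
              obtain ⟨z, hz⟩ := exists_conj_ne K
              refine ⟨x, fun v => ?_⟩
              have h5 : ∀ v, dqRho C ((cmConj K z - z) * y) (dqJ C v) = 0 := by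
                intro v
                have h6 := hc z v
                have h7 : dqJ C (dqRho C z v) = dqRho C (cmConj K z) (dqJ C v) := C.conj_j z v
                have h8 : ∀ a b w, dqRho C a (dqRho C b w) = dqRho C (a * b) w := fun a b w =>
                  (C.mul a b w).symm
                rw [hxy, hxy, map_add, h7, h8, h8, h8, h8, mul_comm x z, add_right_inj] at h6
                rw [sub_mul, map_sub, LinearMap.sub_apply, mul_comm (cmConj K z) y, h6, sub_self]
              have h8 : dqRho C y (dqJ C v) = 0 := by
                have h9 := congrArg (dqRho C (cmConj K z - z)⁻¹) (h5 v)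
                rw [map_zero, ← Module.End.mul_apply, ← map_mul, ← mul_assoc,
                  inv_mul_cancel₀ (sub_ne_zero.mpr hz), one_mul] at h9
                exact h9
              rw [hxy, h8, add_zero]
            hnd := hnd_pData A
            lam := lam
            lam_rat := h1
            gen := h2
            eb := eb
            heb := h3
            j := dqJ C
            hj := isDRB_of_isEnd A _ C.endo_j
            b := C.b
            b_ne := C.ne_zero
            jj := C.sq_j
            jρ := C.conj_j
            jψ := fun u v => C.rosati_j u v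
            hend := hend
            cplx := fun σ hσ => IsTotallyComplex.complexEmbedding_not_isReal σ
              (ComplexEmbedding.isReal_iff.mpr hσ) }, fun x v => rfl, fun v => rfl⟩

/-- weights of factors with complex multiplication, in the two descriptions -/
lemma tw_eq_mat (F : UF (pData A) K 1) (G : Fac (pData A) K) (hG : ¬ G.gl)
    (h : ∀ x v, F.ρ x v = G.ρ x v) (X : Module.End ℂ A.H1) (hX : F.Comm X) (σ : K →+* ℂ) :
    tw F σ X = G.mat σ X 0 0 := by
  have hρ : F.ρ = G.ρ := RingHom.ext fun x => LinearMap.ext fun v => h x v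
  have h1 : G.e σ 0 ≠ 0 := by
    intro h0
    have h2 := G.co_e σ 0 σ 0 (Or.inr rfl)
    rw [h0, map_zero, if_pos ⟨rfl, rfl⟩] at h2
    exact zero_ne_one h2
  have h2 : X (G.e σ 0) = tw F σ X • G.e σ 0 := by
    have h3 : G.e σ 0 = proj F.ρ σ (G.lf.lam 0) := by
      show proj G.ρ σ (G.lf.lam 0) = _
      rw [hρ]
    rw [h3, F.proj_eq, Fin.sum_univ_one, map_smul, act_one F X hX σ, smul_comm]
  show tw F σ X = G.lf.co σ 0 (X (G.e σ 0))
  rw [h2, map_smul, G.co_e σ 0 σ 0 (Or.inr rfl), if_pos ⟨rfl, rfl⟩, smul_eq_mul, mul_one]

end Pool.Agent.Helper8.D
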