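import Pool.Agent.Helper8.D.Types
import Pool.Agent.Helper24.PT.PTypes

/-!
The conditions on the factors of type III with first homology of rank two over the endomorphism
algebra.
-/

namespace Pool.Agent.GPC

/-- The abelian varieties `A_i`, `i ∈ Q`, of type III (with centre of the endomorphism algebra of
degree `[K_i : ℚ] / 2`) are pairwise without non-zero homomorphisms; the degrees of the centres are
`1` or prime numbers; and for `i ≠ j` either both centres are `ℚ`, or the degrees are different and
none is twice the other. -/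
structure QuatCond {I : Type} (A : I → AbVar) (K : I → Type) [∀ i, Field (K i)]
    [∀ i, NumberField (K i)] (Q : Finset I) : Prop where
  hom_zero : HomZero A Q
  degree : ∀ i ∈ Q, Module.finrank ℚ (K i) = 2 ∨
    ∃ p : ℕ, p.Prime ∧ Module.finrank ℚ (K i) = 2 * p
  pair : ∀ i ∈ Q, ∀ j ∈ Q, i ≠ j →
    (Module.finrank ℚ (K i) = 2 ∧ Module.finrank ℚ (K j) = 2) ∨
    (Module.finrank ℚ (K i) ≠ Module.finrank ℚ (K j) ∧
      Module.finrank ℚ (K i) ≠ 2 * Module.finrank ℚ (K j) ∧
      Module.finrank ℚ (K j) ≠ 2 * Module.finrank ℚ (K i))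

end Pool.Agent.GPC
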