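import Pool.Agent.Helper7.ActForm

/-!
A form which is an eigenvector, of eigenvalue half of the degree, for the action of a projector
vanishes on tuples with too many vectors in the kernel of the projector.
-/

namespace Pool.Agent.Helper8

open Module Pool.Agent.Helper7

variable {W : Type*} [AddCommGroup W] [Module ℂ W] {k : ℕ}
  (α : MultilinearMap ℂ (fun _ : Fin (2 * k) => W) ℂ) (N : Module.End ℂ W)

/-- vanishing of the components of the wrong type -/
theorem zero_of_type (hN : ∀ w, N (N w) = N w) (hα : actForm N α = (k : ℂ) • α)
    (v : Fin (2 * k) → W) (J : Finset (Fin (2 * k))) (hJ : k < J.card)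
    (hv : ∀ r ∈ J, N (v r) = 0) : α v = 0 := by
  classical
  have key : ∀ (T : Finset (Fin (2 * k))), α (fun r => if r ∈ T then N (v r) else v r - N (v r)) =
      0 := by
    intro T
    by_cases h1 : ∃ r ∈ J, r ∈ T
    · obtain ⟨r, hrJ, hrT⟩ := h1
      refine α.map_coord_zero r ?_
      show (if r ∈ T then N (v r) else v r - N (v r)) = 0
      rw [if_pos hrT, hv r hrJ]
    · push Not at h1
      obtain ⟨w, hw⟩ : ∃ w : Fin (2 * k) → W,
        w = fun r => if r ∈ T then N (v r) else v r - N (v r) := ⟨_, rfl⟩
      rw [← hw]
      have hw1 : ∀ r ∈ T, N (w r) = w r := by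
        intro r hr
        rw [hw]
        show N (if r ∈ T then N (v r) else v r - N (v r)) =
          (if r ∈ T then N (v r) else v r - N (v r))
        rw [if_pos hr, hN]
      have hw0 : ∀ r, r ∉ T → N (w r) = 0 := by
        intro r hr
        rw [hw]
        show N (if r ∈ T then N (v r) else v r - N (v r)) = 0
        rw [if_neg hr, map_sub, hN, sub_self]
      have e := congrArg (fun g => g w) hα
      simp only [actForm_apply, _root_.smul_apply, smul_eq_mul] at e
      have e1 : ∑ r, α (Function.update w r (N (w r))) = (T.card : ℂ) * α w := by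
        rw [← Finset.sum_filter_add_sum_filter_not Finset.univ (fun r => r ∈ T)]
        have e2 : ∑ r ∈ Finset.univ.filter (fun r => r ∉ T),
            α (Function.update w r (N (w r))) = 0 := by
          refine Finset.sum_eq_zero fun r hr => ?_
          rw [hw0 r (Finset.mem_filter.mp hr).2]
          exact α.map_update_zero _ _
        have e3 : ∀ r ∈ Finset.univ.filter (fun r => r ∈ T),
            α (Function.update w r (N (w r))) = α w := by
          intro r hr
          rw [hw1 r (Finset.mem_filter.mp hr).2, Function.update_eq_self]
        rw [e2, add_zero, Finset.sum_congr rfl e3, Finset.sum_const, nsmul_eq_mul]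
        congr 2
        simp
      rw [e1] at e
      have hT : (T.card : ℂ) ≠ (k : ℂ) := by
        intro h
        have h2 : T.card = k := by exact_mod_cast h
        have h3 : Disjoint T J := by
          rw [Finset.disjoint_left]
          exact fun r hr hrJ => h1 r hrJ hr
        have h4 := Finset.card_union_of_disjoint h3
        have h5 : (T ∪ J).card ≤ 2 * k := by
          have := Finset.card_le_univ (T ∪ J)
          rwa [Fintype.card_fin] at this
        omega
      have e4 : ((T.card : ℂ) - k) * α w = 0 := by rw [sub_mul, e, sub_self]
      exact (mul_eq_zero.mp e4).resolve_left (sub_ne_zero.mpr hT)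
  have e : v = (fun r => N (v r)) + (fun r => v r - N (v r)) := by
    funext r
    rw [Pi.add_apply]
    abel
  conv_lhs => rw [e]
  rw [α.map_add_univ]
  refine Finset.sum_eq_zero fun T _ => ?_
  have h := key T
  have e5 : (T.piecewise (fun r => N (v r)) fun r => v r - N (v r)) =
      fun r => if r ∈ T then N (v r) else v r - N (v r) := by
    funext r
    by_cases hr : r ∈ T
    · rw [Finset.piecewise_eq_of_mem _ _ _ hr, if_pos hr]
    · rw [Finset.piecewise_eq_of_notMem _ _ _ hr, if_neg hr]
  rw [e5]
  exact h

end Pool.Agent.Helper8
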