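import Pool.Agent.Helper28.GPC.RelT
import Pool.Agent.Helper8.D.Build
import Pool.Agent.Helper8.D.HodgeIn
import Pool.Agent.Helper8.D.HodgeStep

/-!
Grothendieck classes are Hodge classes, for families of factors of real type, of type III and of CM
type.
-/

namespace Pool.Agent.Helper8.D

open Module NumberField LieAlgebra Pool.Agent.Helper7 Pool.Agent.Helper24 Pool.Agent.GPC Matrix
open Pool.Agent.Helper28.GPC (chiT relT relT_noExoticK)

attribute [local instance 100] LieRing.ofAssociativeRing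

set_option linter.unusedSectionVars false

section relations

variable {I : Type} [Fintype I] [DecidableEq I] (A : I → AbVar) {n : I → ℕ} {K : I → Type}
  [∀ i, Field (K i)] [∀ i, NumberField (K i)]

omit [DecidableEq I] in
/-- sums supported on a part of the index set -/
lemma sum_sub_emb [DecidableEq I] (T : Finset I) (f : Emb K → ℂ) (hf : ∀ t, t.1 ∉ T → f t = 0) :
    ∑ t, f t = ∑ t : Emb (fun i : {i // i ∈ T} => K i.1), f ⟨t.1.1, t.2⟩ := by
  rw [Fintype.sum_sigma, Fintype.sum_sigma]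
  have h1 : ∀ i : I, i ∉ T → ∑ σ : K i →+* ℂ, f ⟨i, σ⟩ = 0 := fun i hi =>
    Finset.sum_eq_zero fun σ _ => hf ⟨i, σ⟩ hi
  rw [← Finset.sum_subset (Finset.subset_univ T) (fun i _ hi => h1 i hi)]
  exact (Finset.sum_coe_sort T (fun i => ∑ σ : K i →+* ℂ, f ⟨i, σ⟩)).symm

/-- no exceptional relations, for the weights of the family -/
theorem noExotic {k : ℕ} {T : Finset I} (F : ∀ i, Fac3 (pData (A i)) (K i))
    (hFT : ∀ i, (F i).isT ↔ i ∈ T)
    (G : ∀ i : {i // i ∈ T}, {F : Fac (pData (A i.1)) (K i.1) // ¬ F.gl})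
    (hFG : ∀ (i : {i // i ∈ T}) x v, (F i.1).toUF.ρ x v = (G i).1.ρ x v)
    (α : MultilinearMap ℂ (fun _ : Fin (2 * k) => HW (fun i => Fin (A i).g ⊕ Fin (A i).g) n) ℂ)
    (hB : ∀ v : Fin (2 * k) → HW (fun i => Fin (A i).g ⊕ Fin (A i).g) n,
      (∀ r, IsRatP n (fun i => pData (A i)) (v r)) →
      ∃ q : ℚ, α v = (2 * Real.pi * Complex.I) ^ k * q)
    (hA : ∀ v : Fin (2 * k) → HW (fun i => Fin (A i).g ⊕ Fin (A i).g) n,
      (∀ r i m j, IsAlgebraic ℚ (v r i m j)) → IsAlgebraic ℚ (α v))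
    (hC : ∀ i ∈ T, IsCMType (A i) (K i))
    (h : OddMultiplicityFree (fun i : {i // i ∈ T} => K i.1) ∨ LowDimCM A n K T ∨
      PrimeFamCM A n K T k)
    (z : Emb K → ℤ) (hz : ∀ t, z (conjT t) = - z t) (hz0 : ∀ t, ¬ (F t.1).isT → z t = 0)
    (hzX : ∀ X, IsInv n (fun i => pData (A i)) α X →
      ∑ t, (z t : ℂ) * ch (fun i => pData (A i)) (FU (fun i => pData (A i)) F) t X = 0)
    (hzn : ∀ t, |z t| ≤ n t.1) (h4 : ∃ m : ℤ, ∑ t, |z t| = 4 * m) (hk4 : ∑ t, |z t| ≤ 4 * k)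
    (t : Emb K) : z t = 0 := by
  classical
  obtain ⟨z', hz'⟩ : ∃ z' : Emb (fun i : {i // i ∈ T} => K i.1) → ℤ,
    ∀ t, z' t = z ⟨t.1.1, t.2⟩ := ⟨_, fun _ => rfl⟩
  have hzT : ∀ t : Emb K, t.1 ∉ T → z t = 0 := fun t ht => hz0 t (fun h => ht ((hFT t.1).mp h))
  have habs : ∑ t, |z' t| = ∑ t, |z t| := by
    have h1 := sum_sub_emb T (fun t : Emb K => ((|z t| : ℤ) : ℂ)) (fun t ht => by
      rw [hzT t ht]; simp)
    have h2 : ((∑ t, |z t| : ℤ) : ℂ) = ((∑ t, |z' t| : ℤ) : ℂ) := by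
      push_cast
      rw [show (∑ t, ((|z t| : ℤ) : ℂ)) = _ from h1]
      refine Finset.sum_congr rfl fun t _ => ?_
      rw [hz']
    exact (by exact_mod_cast h2 : ∑ t, |z t| = ∑ t, |z' t|).symm
  have hmem : (fun t => (z' t : ℚ)) ∈ relT n (fun i => pData (A i)) G α := by
    refine ⟨fun i σ => ?_, fun X hX _ => ?_⟩
    · show (z' ⟨i, ComplexEmbedding.conjugate σ⟩ : ℚ) = - (z' ⟨i, σ⟩ : ℚ)
      rw [hz', hz']
      have h1 := hz ⟨i.1, σ⟩
      have h2 : z ⟨i.1, ComplexEmbedding.conjugate σ⟩ = - z ⟨i.1, σ⟩ := h1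
      rw [h2]
      push_cast
      ring
    · have h1 := hzX X hX
      rw [sum_sub_emb T _ (fun t ht => by rw [hzT t ht]; simp)] at h1
      rw [← h1]
      refine Finset.sum_congr rfl fun t _ => ?_
      have h3 : (((fun t => (z' t : ℚ)) t : ℚ) : ℂ) = (z ⟨t.1.1, t.2⟩ : ℂ) := by
        show ((z' t : ℚ) : ℂ) = _
        rw [hz']
        push_cast
        rfl
      rw [h3]
      have h2 : chiT (fun i => pData (A i)) G t X =
          ch (fun i => pData (A i)) (FU (fun i => pData (A i)) F) ⟨t.1.1, t.2⟩ X := by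
        have hk : (F t.1.1).isT := (hFT t.1.1).mpr t.1.2
        have hG := hFG t.1
        have hsym := symI n (fun i => pData (A i)) α hX t.1.1
        show (G t.1).1.mat t.2 (X.1 t.1.1) 0 0 = tw (F t.1.1).toUF t.2 (X.1 t.1.1)
        have key : ∀ f : Fac3 (pData (A t.1.1)) (K t.1.1), f.isT →
            (∀ x v, f.toUF.ρ x v = (G t.1).1.ρ x v) →
            (G t.1).1.mat t.2 (X.1 t.1.1) 0 0 = tw f.toUF t.2 (X.1 t.1.1) := by
          intro f hf hfG
          cases f with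
          | S F' h' => exact hf.elim
          | Q F' => exact hf.elim
          | R F' => exact hf.elim
          | T F' =>
            exact (tw_eq_mat F' (G t.1).1 (G t.1).2 hfG (X.1 t.1.1) (hsym.commF F') t.2).symm
        exact key _ hk hG
      rw [h2]
  have hz'0 := relT_noExoticK A G α hB hA hC h z' hmem (fun t => by rw [hz']; exact hzn _)
    (by rw [habs]; exact h4) (by rw [habs]; exact hk4)
  by_cases ht : t.1 ∈ T
  · have h1 := hz'0 ⟨⟨t.1, ht⟩, t.2⟩
    rw [hz'] at h1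
    exact h1
  · exact hzT t ht

end relations

section main

variable {I : Type} [Fintype I] (A : I → AbVar) (n : I → ℕ) (K : I → Type)
  [∀ i, Field (K i)] [∀ i, NumberField (K i)]

/-- the theorem for families of factors -/
theorem hodge_of_factors [DecidableEq I] (T : Finset I) (hT : ∀ i ∈ T, IsCMType (A i) (K i))
    (F : ∀ i, Fac3 (pData (A i)) (K i)) (hFT : ∀ i, (F i).isT ↔ i ∈ T)
    (G : ∀ i : {i // i ∈ T}, {F : Fac (pData (A i.1)) (K i.1) // ¬ F.gl})
    (hFG : ∀ (i : {i // i ∈ T}) x v, (F i.1).toUF.ρ x v = (G i).1.ρ x v)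
    (k : ℕ) (hCM : OddMultiplicityFree (fun i : {i // i ∈ T} => K i.1) ∨ LowDimCM A n K T ∨
      PrimeFamCM A n K T k) (α : Form A n (2 * k)) (hα : IsGrothendieck A n k α)
    (hSS : ∀ s s' : Emb K, (F s.1).isS → (F s'.1).isS → ∀ M : Matrix (Fin 2) (Fin 2) ℂ,
      M.det ≠ 0 → (∀ X, IsInv n (fun i => pData (A i)) (α : MultilinearMap ℂ
        (fun _ : Fin (2 * k) => HW (fun i => Fin (A i).g ⊕ Fin (A i).g) n) ℂ) X →
        AA (fun i => pData (A i)) F s 0 X * M = M * AA (fun i => pData (A i)) F s' 0 X) →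
      AA (fun i => pData (A i)) F s 0 (hG A) * M = M * AA (fun i => pData (A i)) F s' 0 (hG A))
    (hQ : ∀ (s : Emb K) (ε : Fin 2) (t' : Emb K × Fin 2), (F s.1).isQ →
      ((F t'.1.1).isS ∨ (F t'.1.1).isQ) → Lk n (fun i => pData (A i)) (α : MultilinearMap ℂ
        (fun _ : Fin (2 * k) => HW (fun i => Fin (A i).g ⊕ Fin (A i).g) n) ℂ) F (s, ε) t' →
      t'.1 = s ∨ t'.1 = conjT s)
    (hR : ∀ s : Emb K, (F s.1).isR → ∀ Z : Module.End ℂ (A s.1).H1,
      Sym (pData (A s.1)) Z 0 → ∃ X, IsInv n (fun i => pData (A i)) (α : MultilinearMap ℂ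
        (fun _ : Fin (2 * k) => HW (fun i => Fin (A i).g ⊕ Fin (A i).g) n) ℂ) X ∧
        (∀ v, nrA (fun i => pData (A i)) F s X v =
          Z (proj (FU (fun i => pData (A i)) F s.1).ρ s.2 v)) ∧
        ∀ t, t ≠ s → t ≠ conjT s → ∀ v, nrA (fun i => pData (A i)) F t X v = 0) :
    IsHodge A n k α := by
  classical
  obtain ⟨hα1, hα2⟩ := hα
  refine ⟨hα2, fun v J hJ hv => ?_⟩
  have hB : ∀ v : Fin (2 * k) → HW (fun i => Fin (A i).g ⊕ Fin (A i).g) n,
      (∀ r, IsRatP n (fun i => pData (A i)) (v r)) →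
      ∃ q : ℚ, (α : MultilinearMap ℂ
        (fun _ : Fin (2 * k) => HW (fun i => Fin (A i).g ⊕ Fin (A i).g) n) ℂ) v =
          (2 * Real.pi * Complex.I) ^ k * q := by
    intro v hv
    apply hα2
    intro r i m
    exact (mem_pData_Q _ _).mp (hv r i m)
  have hA : ∀ v : Fin (2 * k) → HW (fun i => Fin (A i).g ⊕ Fin (A i).g) n,
      (∀ r i m j, IsAlgebraic ℚ (v r i m j)) → IsAlgebraic ℚ ((α : MultilinearMap ℂ
        (fun _ : Fin (2 * k) => HW (fun i => Fin (A i).g ⊕ Fin (A i).g) n) ℂ) v) := hα1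
  have hϖ := Complex.two_pi_I_ne_zero
  have hcxT : ∀ i, (F i).isT → ∀ σ : K i →+* ℂ, ComplexEmbedding.conjugate σ ≠ σ := by
    intro i hi σ hσ
    have := (hT i ((hFT i).mp hi)).choose
    exact IsTotallyComplex.complexEmbedding_not_isReal σ (ComplexEmbedding.isReal_iff.mpr hσ)
  have hcx : ∀ i, (F i).isQ ∨ (F i).isR → ∀ σ : K i →+* ℂ, ComplexEmbedding.conjugate σ ≠ σ := by
    intro i hi σ
    cases hF : F i with
    | S F' h' => rw [hF] at hi; rcases hi with hi | hi <;> exact hi.elim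
    | Q F' => exact F'.cplx σ
    | R F' => exact F'.cplx σ
    | T F' => rw [hF] at hi; rcases hi with hi | hi <;> exact hi.elim
  have h1 := assemble n (fun i => pData (A i)) (α : MultilinearMap ℂ
        (fun _ : Fin (2 * k) => HW (fun i => Fin (A i).g ⊕ Fin (A i).g) n) ℂ) F hϖ hB hA
    (fun v r r' hrr hv => α.map_eq_zero_of_eq v hv hrr) hcxT (hG A) (hG_sym A) rfl (hG_idem A)
    (hodge_in n (fun i => pData (A i)) _ F hϖ hB hA (hG A) (hG_sym A) rfl hcx hSS hQ hR)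
    (fun z hz1 hz2 hz3 hz4 hz5 hz6 => noExotic A F hFT G hFG _ hB hA hT hCM z hz1 hz2 hz3 hz4
      hz5 hz6)
  refine zero_of_type _ (lift n (hG A).1) (fun w => ?_) h1 v J hJ (fun r hr => ?_)
  · funext i m
    rw [lift_apply, lift_apply]
    exact hG_idem A i _
  · funext i m
    rw [lift_apply]
    exact (hod_fil (A i)).mp (hv r hr i m)

end main

end Pool.Agent.Helper8.D
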