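import Pool.Agent.Helper20.LinkIso
import Pool.Agent.Helper24.PT.PMain
import Pool.Agent.Helper36.NoLink2
import Pool.Agent.Helper36.RSix
import Pool.Agent.Helper8.D.CondIII
import Pool.Agent.Helper8.D.Final

/-!
Grothendieck classes are Hodge classes, for products of powers of abelian varieties of `GL_2`-type,
of type III with first homology of rank two or three over the endomorphism algebra, and of CM type.
-/

namespace Pool.Agent.Helper8.D

open Module NumberField LieAlgebra Pool.Agent.Helper7 Pool.Agent.Helper24 Pool.Agent.GPC Matrix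

attribute [local instance 100] LieRing.ofAssociativeRing

set_option linter.unusedSectionVars false

theorem exists_UF1 (A : AbVar) (K : Type) [Field K] [NumberField K] [IsCMField K]
    (C : CM A K) : ∃ F : UF (pData A) K 1, ∀ x v, F.ρ x v = cmRho C x v := by
  have hQ : ∀ x, ∀ v ∈ (pData A).Q, cmRho C x v ∈ (pData A).Q :=
    fun x v hv => (isDRB_of_isEnd A _ (C.endo x)).rat v hv
  obtain ⟨lam, h1, h2, eb, h3⟩ := exists_Kbasis (pData A) (cmRho C) hQ 1
    (by rw [C.degree, card_index, mul_one])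
  exact ⟨{  ρ := cmRho C
            hρ := fun x => isDRB_of_isEnd A _ (C.endo x)
            cc := cmConj K
            hcc := fun σ x => IsCMField.complexEmbedding_complexConj K σ x
            hros := fun x u v => C.rosati x u v
            hcen := fun f hf hc => cen_one (pData A) (cmRho C) lam h1 h2 f hf hc
            hnd := hnd_pData A
            lam := lam
            lam_rat := h1
            gen := h2
            eb := eb
            heb := h3 }, fun x v => rfl⟩

variable {I : Type} [Fintype I] (A : I → AbVar) (n : I → ℕ) (K : I → Type)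
  [∀ i, Field (K i)] [∀ i, NumberField (K i)]

theorem main_III (hnp : ∀ i, NotProportional (A i)) (S Q R T : Finset I)
    (hI : ∀ i, i ∈ S ∨ i ∈ Q ∨ i ∈ R ∨ i ∈ T) (hS : ∀ i ∈ S, IsRMType (A i) (K i))
    (hQ : ∀ i ∈ Q, IsTypeThree (A i) (K i) 2) (hR : ∀ i ∈ R, IsTypeThree (A i) (K i) 3)
    (hT : ∀ i ∈ T, IsCMType (A i) (K i)) (hQC : QuatCond A K Q) (hRC : HomZero A R)
    (k : ℕ) (hCM : OddMultiplicityFree (fun i : {i // i ∈ T} => K i.1) ∨ LowDimCM A n K T ∨
      PrimeFamCM A n K T k) (α : Form A n (2 * k)) (hα : IsGrothendieck A n k α) :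
    IsHodge A n k α := by
  classical
  -- the factors of CM type
  have hTex : ∀ i : {i // i ∈ T}, ∃ (G : {F : Fac (pData (A i.1)) (K i.1) // ¬ F.gl})
      (F : UF (pData (A i.1)) (K i.1) 1), ∀ x v, F.ρ x v = G.1.ρ x v := by
    intro i
    obtain ⟨h1, ⟨C⟩⟩ := hT i.1 i.2
    obtain ⟨F, hF⟩ := exists_UF1 (A i.1) (K i.1) C
    exact ⟨⟨cmFac (A i.1) (K i.1) C (hnp i.1), fun h => h⟩, F, hF⟩
  choose G FT hGT using hTex
  have hF : ∀ i, ∃ f : Fac3 (pData (A i)) (K i), (f.isT ↔ i ∈ T) ∧ (f.isQ → i ∈ Q) ∧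
      (f.isR → i ∈ R) ∧ (∀ hi : i ∈ T, ∀ x v, f.toUF.ρ x v = (G ⟨i, hi⟩).1.ρ x v) := by
    intro i
    by_cases hiT : i ∈ T
    · exact ⟨.T (FT ⟨i, hiT⟩), ⟨fun _ => hiT, fun _ => trivial⟩, fun h => h.elim,
        fun h => h.elim, fun _ x v => hGT ⟨i, hiT⟩ x v⟩
    · by_cases hiQ : i ∈ Q
      · obtain ⟨h1, ⟨C⟩⟩ := hQ i hiQ
        obtain ⟨F', -, -⟩ := exists_QF C 4 rfl
        exact ⟨.Q F', ⟨fun h => h.elim, fun h => absurd h hiT⟩, fun _ => hiQ, fun h => h.elim,
          fun h => absurd h hiT⟩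
      · by_cases hiR : i ∈ R
        · obtain ⟨h1, ⟨C⟩⟩ := hR i hiR
          obtain ⟨F', -, -⟩ := exists_QF C 6 rfl
          exact ⟨.R F', ⟨fun h => h.elim, fun h => absurd h hiT⟩, fun h => h.elim,
            fun _ => hiR, fun h => absurd h hiT⟩
        · have hiS : i ∈ S := by
            rcases hI i with h | h | h | h
            · exact h
            · exact absurd h hiQ
            · exact absurd h hiR
            · exact absurd h hiT
          obtain ⟨h1, ⟨C⟩⟩ := hS i hiS
          obtain ⟨F', hF'⟩ := nonempty_UF2 (A i) (K i) C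
          exact ⟨.S F' (fun σ => ComplexEmbedding.isReal_iff.mp
            (IsTotallyReal.complexEmbedding_isReal σ)), ⟨fun h => h.elim,
            fun h => absurd h hiT⟩, fun h => h.elim, fun h => h.elim,
            fun h => absurd h hiT⟩
  choose F hFT hFQ hFR hFG using hF
  have hQd : ∀ i ∈ Q, ∀ j ∈ Q, i ≠ j → ∀ g : (A i).H1 →ₗ[ℂ] (A j).H1,
      IsDRB (pData (A i)) (pData (A j)) g → g = 0 := by
    intro i hi j hj hij g hg
    have h1 := (isDRB_iff (A i) (A j) g).mp hg
    exact LinearMap.ext fun v => hQC.hom_zero i hi j hj hij g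
        ⟨g.isLinear, h1.1, h1.2, hom_fil (A i) (A j) g g.isLinear h1.1 h1.2⟩ v
  have hRd : ∀ i ∈ R, ∀ j ∈ R, i ≠ j → ∀ g : (A i).H1 →ₗ[ℂ] (A j).H1,
      IsDRB (pData (A i)) (pData (A j)) g → g = 0 := by
    intro i hi j hj hij g hg
    have h1 := (isDRB_iff (A i) (A j) g).mp hg
    exact LinearMap.ext fun v => hRC i hi j hj hij g
        ⟨g.isLinear, h1.1, h1.2, hom_fil (A i) (A j) g g.isLinear h1.1 h1.2⟩ v
  have hB : ∀ v : Fin (2 * k) → HW (fun i => Fin (A i).g ⊕ Fin (A i).g) n,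
      (∀ r, IsRatP n (fun i => pData (A i)) (v r)) →
      ∃ q : ℚ, (α : MultilinearMap ℂ
        (fun _ : Fin (2 * k) => HW (fun i => Fin (A i).g ⊕ Fin (A i).g) n) ℂ) v =
          (2 * Real.pi * Complex.I) ^ k * q := by
    intro v hv
    apply hα.2
    intro r i m
    exact (mem_pData_Q _ _).mp (hv r i m)
  have hA : ∀ v : Fin (2 * k) → HW (fun i => Fin (A i).g ⊕ Fin (A i).g) n,
      (∀ r i m j, IsAlgebraic ℚ (v r i m j)) → IsAlgebraic ℚ ((α : MultilinearMap ℂ
        (fun _ : Fin (2 * k) => HW (fun i => Fin (A i).g ⊕ Fin (A i).g) n) ℂ) v) := hα.1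
  have hϖ := Complex.two_pi_I_ne_zero
  refine hodge_of_factors A n K T hT F hFT G (fun i => hFG i.1 i.2) k hCM α hα ?_ ?_ ?_
  · intro s s' hs hs' M _ hM
    exact Helper20.link_S n (fun i => pData (A i)) _ F hϖ hB hA (t := (s, 0)) (t' := (s', 0))
      hs hs' M hM (hG A) (fun i j f hf v => (hod_comm f hf v).symm)
  · intro s ε t' hs ht' h
    exact Helper36.no_link' n A _ F hB hA
      (fun i j hi hj hij g hg => hQd i (hFQ i hi) j (hFQ j hj) hij g hg)
      (fun i hi => hQC.degree i (hFQ i hi))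
      (fun i j hi hj hij => hQC.pair i (hFQ i hi) j (hFQ j hj) hij) s ε t' hs ht' h
  · intro s hs Z hZ
    exact Helper36.exists_R n (fun i => pData (A i)) _ F hϖ hB hA
      (fun i j hi hj hij g hg => hRd i (hFR i hi) j (hFR j hj) hij g hg) s hs Z hZ

end Pool.Agent.Helper8.D
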